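import Pool.Agent.Results.MP_a0c03c_an.FinDimRadical

/-!
# Property (S) and quotients by finite-dimensional ideals: a characterization
-/

set_option autoImplicit false

namespace Pool.Agent.Y147.FR

open Pool.Agent.Results.MP_a0c03c_an.FinDimRadical

section

variable {A B : Type} [NonUnitalNormedRing A] [NormedSpace ℂ A] [IsScalarTower ℂ A A]
  [SMulCommClass ℂ A A] [NonUnitalNormedRing B] [NormedSpace ℂ B] [IsScalarTower ℂ B B]
  [SMulCommClass ℂ B B]

/-- lifting with control of the norm -/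
theorem exists_lift (q : A →ₙₐ[ℂ] B) (K : Submodule ℂ A) (hq : Function.Surjective q)
    (hK : ∀ a, q a = 0 ↔ a ∈ K) (hn : ∀ a, ‖q a‖ = Metric.infDist a (K : Set A)) (b : B) :
    ∃ a, q a = b ∧ ‖a‖ ≤ 2 * ‖b‖ := by
  by_cases hb : b = 0
  · exact ⟨0, by rw [map_zero, hb], by rw [hb]; simp⟩
  obtain ⟨a, ha⟩ := hq b
  have hb' : 0 < ‖b‖ := norm_pos_iff.2 hb
  have h1 : Metric.infDist a (K : Set A) < 2 * ‖b‖ := by
    rw [← hn, ha]
    linarith
  obtain ⟨k, hk, hk2⟩ := (Metric.infDist_lt_iff ⟨0, zero_mem K⟩).1 h1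
  refine ⟨a - k, ?_, ?_⟩
  · rw [map_sub, (hK k).2 hk, sub_zero, ha]
  · rw [← dist_eq_norm]
    exact hk2.le

theorem norm_le_of (q : A →ₙₐ[ℂ] B) (K : Submodule ℂ A)
    (hn : ∀ a, ‖q a‖ = Metric.infDist a (K : Set A)) (a : A) : ‖q a‖ ≤ ‖a‖ := by
  rw [hn]
  have := Metric.infDist_le_dist_of_mem (x := a) (s := (K : Set A)) (zero_mem K)
  rwa [dist_zero_right] at this

theorem exists_squareSpan (q : A →ₙₐ[ℂ] B) (hq : Function.Surjective q) {x : B}
    (hx : x ∈ squareSpan B) : ∃ y ∈ squareSpan A, q y = x := by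
  induction hx using Submodule.span_induction with
  | mem x hx =>
    obtain ⟨a, b, rfl⟩ := hx
    obtain ⟨a', rfl⟩ := hq a
    obtain ⟨b', rfl⟩ := hq b
    exact ⟨a' * b', mem_squareSpan_mul _ _, map_mul q _ _⟩
  | zero => exact ⟨0, zero_mem _, map_zero q⟩
  | add x y _ _ hx hy =>
    obtain ⟨x', h1, rfl⟩ := hx
    obtain ⟨y', h2, rfl⟩ := hy
    exact ⟨x' + y', add_mem h1 h2, map_add q _ _⟩
  | smul c x _ hx =>
    obtain ⟨x', h1, rfl⟩ := hx
    exact ⟨c • x', Submodule.smul_mem _ c h1, map_smul q c x'⟩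

theorem sum_mem_squareSpan {n : ℕ} (a b : Fin n → A) : ∑ i, a i * b i ∈ squareSpan A :=
  sum_mem fun i _ => mem_squareSpan_mul _ _

/-- necessity -/
theorem char_mp (q : A →ₙₐ[ℂ] B) (K : Submodule ℂ A) [FiniteDimensional ℂ K]
    (hq : Function.Surjective q) (hK : ∀ a, q a = 0 ↔ a ∈ K)
    (hn : ∀ a, ‖q a‖ = Metric.infDist a (K : Set A)) (hB : PropertyS B) (u : A) (hu : u ∈ K)
    (hc : u ∈ closure (squareSpan A : Set A)) : u ∈ squareSpan A := by
  obtain ⟨C, hC⟩ := hB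
  set K0 : Submodule ℂ A := K ⊓ squareSpan A with hK0
  have hfd : FiniteDimensional ℂ K0 := Submodule.finiteDimensional_of_le inf_le_left
  have hcl : IsClosed (K0 : Set A) := Submodule.closed_of_finiteDimensional K0
  suffices h : u ∈ closure (K0 : Set A) by
    rw [hcl.closure_eq] at h
    exact h.2
  rw [Metric.mem_closure_iff]
  intro ε hε
  set D : ℝ := 1 + 4 * |C| with hD
  have hD0 : 0 < D := by positivity
  obtain ⟨y, hy, hyu⟩ := Metric.mem_closure_iff.1 hc (ε / D) (by positivity)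
  have hqy : ‖q y‖ ≤ dist u y := by
    have h1 : q y = q (y - u) := by rw [map_sub, (hK u).2 hu, sub_zero]
    rw [h1, dist_comm, dist_eq_norm]
    exact norm_le_of q K hn _
  have hqm : q y ∈ squareSpan B := by
    have : ∀ z ∈ squareSpan A, q z ∈ squareSpan B := fun z hz => map_squareSpan q hz
    exact this y hy
  obtain ⟨n, b, c, h1, h2⟩ := hC (q y) hqm
  choose a ha1 ha2 using fun i => exists_lift q K hq hK hn (b i)
  choose d hd1 hd2 using fun i => exists_lift q K hq hK hn (c i)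
  have hs : ‖∑ i, a i * d i‖ ≤ 4 * |C| * ‖q y‖ := by
    calc ‖∑ i, a i * d i‖ ≤ ∑ i, ‖a i * d i‖ := norm_sum_le _ _
      _ ≤ ∑ i, 4 * (‖b i‖ * ‖c i‖) := by
          refine Finset.sum_le_sum fun i _ => ?_
          calc ‖a i * d i‖ ≤ ‖a i‖ * ‖d i‖ := norm_mul_le _ _
            _ ≤ (2 * ‖b i‖) * (2 * ‖c i‖) :=
                mul_le_mul (ha2 i) (hd2 i) (norm_nonneg _) (by positivity)
            _ = 4 * (‖b i‖ * ‖c i‖) := by ring
      _ = 4 * ∑ i, ‖b i‖ * ‖c i‖ := by rw [Finset.mul_sum]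
      _ ≤ 4 * (C * ‖q y‖) := by linarith
      _ ≤ 4 * (|C| * ‖q y‖) := by
          have := mul_le_mul_of_nonneg_right (le_abs_self C) (norm_nonneg (q y))
          linarith
      _ = 4 * |C| * ‖q y‖ := by ring
  refine ⟨y - ∑ i, a i * d i, ⟨?_, sub_mem hy (sum_mem_squareSpan a d)⟩, ?_⟩
  · rw [SetLike.mem_coe, ← hK, map_sub, map_sum, h1, sub_eq_zero]
    refine Finset.sum_congr rfl fun i _ => ?_
    rw [map_mul, ha1, hd1]
  · have h3 : dist u (y - ∑ i, a i * d i) ≤ dist u y + ‖∑ i, a i * d i‖ := by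
      refine (dist_triangle u y _).trans ?_
      rw [dist_eq_norm y, sub_sub_cancel]
    have h4 : 4 * |C| * ‖q y‖ ≤ 4 * |C| * dist u y :=
      mul_le_mul_of_nonneg_left hqy (by positivity)
    have h5 : dist u (y - ∑ i, a i * d i) ≤ D * dist u y := by
      rw [hD]
      linarith
    calc dist u (y - ∑ i, a i * d i) ≤ D * dist u y := h5
      _ < D * (ε / D) := mul_lt_mul_of_pos_left hyu hD0
      _ = ε := by field_simp

/-- sufficiency -/
theorem char_mpr (q : A →ₙₐ[ℂ] B) (K : Submodule ℂ A) [FiniteDimensional ℂ K]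
    (hq : Function.Surjective q) (hK : ∀ a, q a = 0 ↔ a ∈ K)
    (hn : ∀ a, ‖q a‖ = Metric.infDist a (K : Set A)) (hA : PropertyS A)
    (hc : ∀ u ∈ K, u ∈ closure (squareSpan A : Set A) → u ∈ squareSpan A) : PropertyS B := by
  obtain ⟨C, hC⟩ := hA
  set S : Submodule ℂ A := (squareSpan A).topologicalClosure with hS
  have hScl : IsClosed (S : Set A) := Submodule.isClosed_topologicalClosure _
  have hSle : squareSpan A ≤ S := Submodule.le_topologicalClosure _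
  -- the quotient by the closure, restricted to `K`
  let g : K →ₗ[ℂ] (A ⧸ S) := S.mkQ.comp K.subtype
  let g' : K →L[ℂ] LinearMap.range g := LinearMap.toContinuousLinearMap g.rangeRestrict
  have hg' : Function.Surjective g' := g.surjective_rangeRestrict
  have : CompleteSpace K := FiniteDimensional.complete ℂ K
  have : FiniteDimensional ℂ (LinearMap.range g) := inferInstance
  have : CompleteSpace (LinearMap.range g) := FiniteDimensional.complete ℂ _
  obtain ⟨C2, hC2, hg2⟩ := g'.exists_preimage_norm_le hg'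
  refine ⟨|C| * (2 * (1 + C2)), fun x hx => ?_⟩
  obtain ⟨y, hy, rfl⟩ := exists_squareSpan q hq hx
  -- a better preimage
  obtain ⟨y', hy'1, hy'2, hy'3⟩ : ∃ y' ∈ squareSpan A, q y' = q y ∧
      ‖y'‖ ≤ 2 * (1 + C2) * ‖q y‖ := by
    obtain ⟨z, hz1, hz2⟩ := exists_lift q K hq hK hn (q y)
    have hkm : y - z ∈ K := by rw [← hK, map_sub, hz1, sub_self]
    obtain ⟨k', hk1, hk2⟩ := hg2 (g' ⟨y - z, hkm⟩)
    have hnorm : ‖g' ⟨y - z, hkm⟩‖ ≤ ‖z‖ := by
      have e1 : ‖g' ⟨y - z, hkm⟩‖ = ‖(S.mkQ (y - z) : A ⧸ S)‖ := rfl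
      have e2 : (S.mkQ (y - z) : A ⧸ S) = S.mkQ (-z) := by
        rw [map_sub, (Submodule.mkQ_apply S y).trans ((Submodule.Quotient.mk_eq_zero S).2 (hSle hy)),
          zero_sub, map_neg]
      rw [e1, e2]
      exact (Submodule.Quotient.norm_mk_le S (-z)).trans (le_of_eq (norm_neg z))
    have hk0S : (y - z) - (k' : A) ∈ S := by
      have h1 : g k' = g ⟨y - z, hkm⟩ := congrArg Subtype.val hk1
      have h2 : S.mkQ ((y - z) - (k' : A)) = 0 := by
        rw [map_sub]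
        exact sub_eq_zero.2 h1.symm
      exact (Submodule.Quotient.mk_eq_zero S).1 h2
    have hk0K : (y - z) - (k' : A) ∈ K := sub_mem hkm k'.2
    have hk0 : (y - z) - (k' : A) ∈ squareSpan A := hc _ hk0K hk0S
    refine ⟨y - ((y - z) - (k' : A)), sub_mem hy hk0, ?_, ?_⟩
    · rw [map_sub, (hK _).2 hk0K, sub_zero]
    · have e1 : y - ((y - z) - (k' : A)) = z + (k' : A) := by abel
      rw [e1]
      have h3 : ‖(k' : A)‖ ≤ C2 * ‖z‖ := hk2.trans (mul_le_mul_of_nonneg_left hnorm hC2.le)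
      calc ‖z + (k' : A)‖ ≤ ‖z‖ + ‖(k' : A)‖ := norm_add_le _ _
        _ ≤ (1 + C2) * ‖z‖ := by linarith
        _ ≤ (1 + C2) * (2 * ‖q y‖) := mul_le_mul_of_nonneg_left hz2 (by linarith)
        _ = 2 * (1 + C2) * ‖q y‖ := by ring
  obtain ⟨n, a, b, h1, h2⟩ := hC y' hy'1
  refine ⟨n, fun i => q (a i), fun i => q (b i), ?_, ?_⟩
  · rw [← hy'2, h1, map_sum]
    exact Finset.sum_congr rfl fun i _ => map_mul q _ _
  · calc ∑ i, ‖q (a i)‖ * ‖q (b i)‖ ≤ ∑ i, ‖a i‖ * ‖b i‖ :=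
        Finset.sum_le_sum fun i _ => mul_le_mul (norm_le_of q K hn _) (norm_le_of q K hn _)
          (norm_nonneg _) (norm_nonneg _)
      _ ≤ C * ‖y'‖ := h2
      _ ≤ |C| * ‖y'‖ := mul_le_mul_of_nonneg_right (le_abs_self C) (norm_nonneg _)
      _ ≤ |C| * (2 * (1 + C2) * ‖q y‖) := mul_le_mul_of_nonneg_left hy'3 (abs_nonneg C)
      _ = |C| * (2 * (1 + C2)) * ‖q y‖ := by ring

omit [SMulCommClass ℂ A A] in
/-- a uniform bound for the representations of the elements of a finite-dimensional subspace -/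
theorem exists_rep_bound (K0 : Submodule ℂ A) [FiniteDimensional ℂ K0] (h : K0 ≤ squareSpan A) :
    ∃ M : ℝ, 0 ≤ M ∧ ∀ x ∈ K0, Rep x (M * ‖x‖) := by
  let b := Module.finBasis ℂ K0
  have h1 : ∀ i, ∃ c : ℝ, 0 ≤ c ∧ ∀ r : ℂ, Rep (r • (b i : A)) (‖r‖ * c) := by
    intro i
    obtain ⟨n, u, v, huv⟩ := exists_rep (h (b i).2)
    refine ⟨∑ j, ‖u j‖ * ‖v j‖, Finset.sum_nonneg fun j _ => by positivity, fun r => ?_⟩
    refine ⟨n, fun j => r • u j, v, ?_, ?_⟩
    · rw [huv, Finset.smul_sum]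
      exact Finset.sum_congr rfl fun j _ => (smul_mul_assoc r (u j) (v j)).symm
    · rw [Finset.mul_sum]
      refine Finset.sum_le_sum fun j _ => ?_
      rw [norm_smul, mul_assoc]
  choose c hc0 hc using h1
  let L : ∀ i, K0 →L[ℂ] ℂ := fun i => LinearMap.toContinuousLinearMap (b.coord i)
  refine ⟨∑ i, ‖L i‖ * c i, Finset.sum_nonneg fun i _ => mul_nonneg (L i).opNorm_nonneg (hc0 i), ?_⟩
  intro x hx
  have h2 : x = ∑ i, (b.repr ⟨x, hx⟩ i) • (b i : A) := by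
    have := congrArg Subtype.val (b.sum_repr ⟨x, hx⟩)
    rw [Submodule.coe_sum] at this
    exact this.symm
  have h3 : Rep x (∑ i, ‖b.repr ⟨x, hx⟩ i‖ * c i) := by
    have h4 := Rep.sum Finset.univ (fun i => (b.repr ⟨x, hx⟩ i) • (b i : A))
      (fun i => ‖b.repr ⟨x, hx⟩ i‖ * c i) fun i _ => hc i _
    rw [← h2] at h4
    exact h4
  refine h3.mono ?_
  rw [Finset.sum_mul]
  refine Finset.sum_le_sum fun i _ => ?_
  have h5 : ‖b.repr ⟨x, hx⟩ i‖ ≤ ‖L i‖ * ‖x‖ := (L i).le_opNorm ⟨x, hx⟩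
  calc ‖b.repr ⟨x, hx⟩ i‖ * c i ≤ (‖L i‖ * ‖x‖) * c i := mul_le_mul_of_nonneg_right h5 (hc0 i)
    _ = ‖L i‖ * c i * ‖x‖ := by ring

/-- property (S) passes from the quotient to the algebra -/
theorem char_up (q : A →ₙₐ[ℂ] B) (K : Submodule ℂ A) [FiniteDimensional ℂ K]
    (hq : Function.Surjective q) (hK : ∀ a, q a = 0 ↔ a ∈ K)
    (hn : ∀ a, ‖q a‖ = Metric.infDist a (K : Set A)) (hB : PropertyS B) : PropertyS A := by
  obtain ⟨C, hC⟩ := hB
  set K0 : Submodule ℂ A := K ⊓ squareSpan A with hK0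
  have hfd : FiniteDimensional ℂ K0 := Submodule.finiteDimensional_of_le inf_le_left
  obtain ⟨M, hM, hrep⟩ := exists_rep_bound K0 inf_le_right
  refine ⟨4 * |C| + M * (1 + 4 * |C|), fun x hx => ?_⟩
  obtain ⟨n, b, c, h1, h2⟩ := hC (q x) (map_squareSpan q hx)
  choose a ha1 ha2 using fun i => exists_lift q K hq hK hn (b i)
  choose d hd1 hd2 using fun i => exists_lift q K hq hK hn (c i)
  have hqx : ‖q x‖ ≤ ‖x‖ := norm_le_of q K hn x
  have hs : ∑ i, ‖a i‖ * ‖d i‖ ≤ 4 * |C| * ‖x‖ := by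
    calc ∑ i, ‖a i‖ * ‖d i‖ ≤ ∑ i, 4 * (‖b i‖ * ‖c i‖) := by
          refine Finset.sum_le_sum fun i _ => ?_
          calc ‖a i‖ * ‖d i‖ ≤ (2 * ‖b i‖) * (2 * ‖c i‖) :=
                mul_le_mul (ha2 i) (hd2 i) (norm_nonneg _) (by positivity)
            _ = 4 * (‖b i‖ * ‖c i‖) := by ring
      _ = 4 * ∑ i, ‖b i‖ * ‖c i‖ := by rw [Finset.mul_sum]
      _ ≤ 4 * (C * ‖q x‖) := by linarith
      _ ≤ 4 * (|C| * ‖x‖) := by
          have h3 := mul_le_mul_of_nonneg_right (le_abs_self C) (norm_nonneg (q x))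
          have h4 := mul_le_mul_of_nonneg_left hqx (abs_nonneg C)
          linarith
      _ = 4 * |C| * ‖x‖ := by ring
  have hy : x - ∑ i, a i * d i ∈ K0 := by
    refine ⟨?_, sub_mem hx (sum_mem_squareSpan a d)⟩
    rw [SetLike.mem_coe, ← hK, map_sub, map_sum, h1, sub_eq_zero]
    refine Finset.sum_congr rfl fun i _ => ?_
    rw [map_mul, ha1, hd1]
  have hyn : ‖x - ∑ i, a i * d i‖ ≤ (1 + 4 * |C|) * ‖x‖ := by
    have h3 : ‖∑ i, a i * d i‖ ≤ ∑ i, ‖a i‖ * ‖d i‖ :=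
      (norm_sum_le _ _).trans (Finset.sum_le_sum fun i _ => norm_mul_le _ _)
    have h4 := norm_sub_le x (∑ i, a i * d i)
    linarith
  have h5 : Rep (∑ i, a i * d i) (4 * |C| * ‖x‖) := ⟨n, a, d, rfl, hs⟩
  have h6 := h5.add (hrep _ hy)
  rw [add_sub_cancel] at h6
  refine h6.mono ?_
  have h7 := mul_le_mul_of_nonneg_left hyn hM
  linarith

end

end Pool.Agent.Y147.FR
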