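import Pool.Agent.Y147.FR.Sep
import Pool.Agent.Y147.FR.Char

/-!
# Property (S) and the radical: a commutative separable counterexample

`A = ℂ ⊕ ℓ¹ ⊕ ℂ` with the multiplication
`(c, x, s) (c', x', s') = (0, (c e + x) (c' e + x'), c c')`, where `e = (1, 1/2, 1/3, ...)` and the
products of sequences are pointwise (up to a constant factor).
-/

set_option autoImplicit false
open scoped ENNReal
open TopologicalSpace

namespace Pool.Agent.Y147.FR

open Pool.Agent.Results.MP_a0c03c_an.FinDimRadical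

/-- a Banach algebra from a bilinear associative map -/
theorem exists_alg_of (E : Type) [NormedAddCommGroup E] [NormedSpace ℂ E] [CompleteSpace E]
    (m : E → E → E) (hs : ∀ x y, m x y = m y x) (ha : ∀ x y z, m x (y + z) = m x y + m x z)
    (hc : ∀ (c : ℂ) x y, m x (c • y) = c • m x y) (hassoc : ∀ x y z, m (m x y) z = m x (m y z))
    (hn : ∀ x y, ‖m x y‖ ≤ ‖x‖ * ‖y‖) :
    ∃ (D : Type) (_ : NonUnitalNormedRing D) (_ : NormedSpace ℂ D) (_ : IsScalarTower ℂ D D)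
      (_ : SMulCommClass ℂ D D) (_ : CompleteSpace D) (e : D ≃ₗ[ℂ] E),
      (∀ d, ‖d‖ = ‖e d‖) ∧ ∀ d d', e (d * d') = m (e d) (e d') := by
  have h0 : ∀ x, m x 0 = 0 := fun x => by
    have := hc 0 x 0
    rwa [zero_smul, zero_smul] at this
  let inst : NonUnitalNormedRing E :=
    { (inferInstance : NormedAddCommGroup E) with
      mul := m
      left_distrib := ha
      right_distrib := fun x y z => by
        change m (x + y) z = m x z + m y z
        rw [hs, ha, hs z x, hs z y]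
      zero_mul := fun x => by
        change m 0 x = 0
        rw [hs, h0]
      mul_zero := h0
      mul_assoc := hassoc
      norm_mul_le := hn }
  let ns : @NormedSpace ℂ E _ inst.toNonUnitalSeminormedRing.toSeminormedAddCommGroup :=
    (inferInstance : NormedSpace ℂ E)
  refine ⟨E, inst, ns, ⟨fun c x y => ?_⟩, ⟨fun c x y => ?_⟩, (inferInstance : CompleteSpace E),
    LinearEquiv.refl ℂ E, fun d => rfl, fun d d' => rfl⟩
  · change m (c • x) y = c • m x y
    rw [hs, hc, hs]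
  · change c • m x y = m x (c • y)
    rw [hc]

/-- the sequence `1 / (k + 1)` -/
noncomputable def ev (k : ℕ) : ℂ := ((1 / ((k : ℝ) + 1) : ℝ) : ℂ)

theorem norm_ev (k : ℕ) : ‖ev k‖ = 1 / ((k : ℝ) + 1) := by
  rw [ev, Complex.norm_real, Real.norm_of_nonneg (by positivity)]

theorem norm_ev_le (k : ℕ) : ‖ev k‖ ≤ 1 := by
  rw [norm_ev]
  have : (0 : ℝ) ≤ (k : ℝ) := Nat.cast_nonneg k
  rw [div_le_one (by positivity)]
  linarith

theorem ev_not_summable : ¬ Summable fun k => ‖ev k‖ := by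
  intro h
  simp only [norm_ev] at h
  have h2 : Summable fun k : ℕ => 1 / ((k : ℝ)) := by
    rw [← summable_nat_add_iff 1]
    simpa using h
  exact Real.not_summable_one_div_natCast h2

theorem ev_mul (k : ℕ) : ev k * ev k = co k uvec := by
  rw [co_uvec, ev, ← Complex.ofReal_mul]
  congr 1
  rw [div_mul_div_comm, one_mul, sq]

/-- multiplication by the sequence `ev` -/
noncomputable def Me : L1 →ₗ[ℂ] L1 where
  toFun x := ⟨fun k => ev k * x k, l1_mem (by
    refine Summable.of_nonneg_of_le (fun k => norm_nonneg _) (fun k => ?_) (l1_summable x)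
    rw [norm_mul]
    exact mul_le_of_le_one_left (norm_nonneg _) (norm_ev_le k))⟩
  map_add' x y := by
    ext k
    exact mul_add (ev k) (x k) (y k)
  map_smul' c x := by ext k; simp [mul_left_comm]

theorem co_Me (k : ℕ) (x : L1) : co k (Me x) = ev k * co k x := rfl

theorem norm_Me (x : L1) : ‖Me x‖ ≤ ‖x‖ := by
  rw [norm_eq_tsum, norm_eq_tsum x]
  refine Summable.tsum_le_tsum (fun k => ?_) (summable_co _) (summable_co x)
  rw [co_Me, norm_mul]
  exact mul_le_of_le_one_left (norm_nonneg _) (norm_ev_le k)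

/-- the product of `a.1 e + a.2` and `b.1 e + b.2` -/
noncomputable def W (a b : ℂ × L1) : L1 :=
  (a.1 * b.1) • uvec + a.1 • Me b.2 + b.1 • Me a.2 + PM a.2 b.2

/-- the coordinates of `a.1 e + a.2` -/
noncomputable def chi (k : ℕ) (a : ℂ × L1) : ℂ := a.1 * ev k + co k a.2

theorem co_W (k : ℕ) (a b : ℂ × L1) : co k (W a b) = chi k a * chi k b := by
  unfold W chi
  rw [map_add, map_add, map_add, map_smul, map_smul, map_smul, co_Me, co_Me, co_PM, ← ev_mul]
  simp only [smul_eq_mul]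
  ring

theorem chi_add (k : ℕ) (a b : ℂ × L1) : chi k (a + b) = chi k a + chi k b := by
  unfold chi
  rw [Prod.fst_add, Prod.snd_add, map_add]
  ring

theorem chi_smul (k : ℕ) (c : ℂ) (a : ℂ × L1) : chi k (c • a) = c * chi k a := by
  unfold chi
  rw [Prod.smul_fst, Prod.smul_snd, map_smul]
  simp only [smul_eq_mul]
  ring

theorem chi_zero_left (k : ℕ) (x : L1) : chi k (0, x) = co k x := by
  unfold chi
  simp

theorem W_symm (a b : ℂ × L1) : W a b = W b a := by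
  apply co_ext
  intro k
  rw [co_W, co_W, mul_comm]

theorem W_add (a b c : ℂ × L1) : W a (b + c) = W a b + W a c := by
  apply co_ext
  intro k
  rw [map_add, co_W, co_W, co_W, chi_add, mul_add]

theorem W_smul (c : ℂ) (a b : ℂ × L1) : W a (c • b) = c • W a b := by
  apply co_ext
  intro k
  rw [map_smul, co_W, co_W, chi_smul, smul_eq_mul]
  ring

theorem norm_W (a b : ℂ × L1) : ‖W a b‖ ≤ (‖uvec‖ + 3) * (‖a‖ * ‖b‖) := by
  have h1 : ‖a.1‖ ≤ ‖a‖ := norm_fst_le a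
  have h2 : ‖a.2‖ ≤ ‖a‖ := norm_snd_le a
  have h3 : ‖b.1‖ ≤ ‖b‖ := norm_fst_le b
  have h4 : ‖b.2‖ ≤ ‖b‖ := norm_snd_le b
  have e1 : ‖(a.1 * b.1) • uvec‖ ≤ ‖uvec‖ * (‖a‖ * ‖b‖) := by
    rw [norm_smul, norm_mul, mul_comm]
    exact mul_le_mul_of_nonneg_left (mul_le_mul h1 h3 (norm_nonneg _) (norm_nonneg _))
      (norm_nonneg _)
  have e2 : ‖a.1 • Me b.2‖ ≤ ‖a‖ * ‖b‖ := by
    rw [norm_smul]
    exact mul_le_mul h1 ((norm_Me _).trans h4) (norm_nonneg _) (norm_nonneg _)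
  have e3 : ‖b.1 • Me a.2‖ ≤ ‖a‖ * ‖b‖ := by
    rw [norm_smul, mul_comm ‖a‖]
    exact mul_le_mul h3 ((norm_Me _).trans h2) (norm_nonneg _) (norm_nonneg _)
  have e4 : ‖PM a.2 b.2‖ ≤ ‖a‖ * ‖b‖ :=
    (PM_norm _ _).trans (mul_le_mul h2 h4 (norm_nonneg _) (norm_nonneg _))
  have e5 := norm_add_le ((a.1 * b.1) • uvec + a.1 • Me b.2 + b.1 • Me a.2) (PM a.2 b.2)
  have e6 := norm_add_le ((a.1 * b.1) • uvec + a.1 • Me b.2) (b.1 • Me a.2)
  have e7 := norm_add_le ((a.1 * b.1) • uvec) (a.1 • Me b.2)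
  unfold W
  linarith

/-- the scaling factor -/
noncomputable def θ : ℝ := (‖uvec‖ + 3)⁻¹

theorem θ_pos : 0 < θ := by
  unfold θ
  positivity

theorem θ_le : θ ≤ 1 := by
  unfold θ
  have : 0 ≤ ‖uvec‖ := norm_nonneg _
  rw [inv_le_one₀ (by positivity)]
  linarith

theorem norm_θ : ‖(θ : ℂ)‖ = θ := by
  rw [Complex.norm_real, Real.norm_of_nonneg θ_pos.le]

theorem norm_θW (a b : ℂ × L1) : ‖(θ : ℂ) • W a b‖ ≤ ‖a‖ * ‖b‖ := by
  rw [norm_smul, norm_θ]
  have h1 := mul_le_mul_of_nonneg_left (norm_W a b) θ_pos.le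
  have h2 : θ * ((‖uvec‖ + 3) * (‖a‖ * ‖b‖)) = ‖a‖ * ‖b‖ := by
    have h3 : θ * (‖uvec‖ + 3) = 1 := by
      unfold θ
      exact inv_mul_cancel₀ (by positivity)
    rw [← mul_assoc, h3, one_mul]
  linarith

/-- the first two components -/
def pr (x : ℂ × L1 × ℂ) : ℂ × L1 := (x.1, x.2.1)

theorem norm_pr (x : ℂ × L1 × ℂ) : ‖pr x‖ ≤ ‖x‖ := by
  rw [Prod.norm_def, Prod.norm_def, Prod.norm_def]
  exact max_le_max le_rfl (le_max_left _ _)

/-- the multiplication of `A` -/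
noncomputable def mA (x y : ℂ × L1 × ℂ) : ℂ × L1 × ℂ :=
  (0, (θ : ℂ) • W (pr x) (pr y), (θ : ℂ) * (x.1 * y.1))

/-- the multiplication of `B` -/
noncomputable def mB (x y : ℂ × L1) : ℂ × L1 := (0, (θ : ℂ) • W x y)

theorem W_assoc (a b c : ℂ × L1) : W (0, (θ : ℂ) • W a b) c = W a (0, (θ : ℂ) • W b c) := by
  apply co_ext
  intro k
  rw [co_W, co_W, chi_zero_left, chi_zero_left, map_smul, map_smul, co_W, co_W]
  simp only [smul_eq_mul]
  ring

theorem exists_A :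
    ∃ (D : Type) (_ : NonUnitalNormedRing D) (_ : NormedSpace ℂ D) (_ : IsScalarTower ℂ D D)
      (_ : SMulCommClass ℂ D D) (_ : CompleteSpace D) (e : D ≃ₗ[ℂ] ℂ × L1 × ℂ),
      (∀ d, ‖d‖ = ‖e d‖) ∧ ∀ d d', e (d * d') = mA (e d) (e d') := by
  refine exists_alg_of (ℂ × L1 × ℂ) mA ?_ ?_ ?_ ?_ ?_
  · intro x y
    unfold mA
    rw [W_symm, mul_comm x.1]
  · intro x y z
    have h1 : pr (y + z) = pr y + pr z := rfl
    unfold mA
    rw [h1, W_add, smul_add, Prod.fst_add]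
    refine Prod.ext (by simp) (Prod.ext rfl ?_)
    show (θ : ℂ) * (x.1 * (y.1 + z.1)) = (θ : ℂ) * (x.1 * y.1) + (θ : ℂ) * (x.1 * z.1)
    ring
  · intro c x y
    have h1 : pr (c • y) = c • pr y := rfl
    unfold mA
    rw [h1, W_smul, smul_comm]
    refine Prod.ext (by simp) (Prod.ext rfl ?_)
    show (θ : ℂ) * (x.1 * (c * y.1)) = c * ((θ : ℂ) * (x.1 * y.1))
    ring
  · intro x y z
    have h1 : pr (mA x y) = (0, (θ : ℂ) • W (pr x) (pr y)) := rfl
    have h2 : pr (mA y z) = (0, (θ : ℂ) • W (pr y) (pr z)) := rfl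
    refine Prod.ext rfl (Prod.ext ?_ ?_)
    · show (θ : ℂ) • W (pr (mA x y)) (pr z) = (θ : ℂ) • W (pr x) (pr (mA y z))
      rw [h1, h2, W_assoc]
    · show (θ : ℂ) * (0 * z.1) = (θ : ℂ) * (x.1 * 0)
      ring
  · intro x y
    have h1 : ‖(θ : ℂ) • W (pr x) (pr y)‖ ≤ ‖x‖ * ‖y‖ :=
      (norm_θW _ _).trans (mul_le_mul (norm_pr x) (norm_pr y) (norm_nonneg _) (norm_nonneg _))
    have h2 : ‖(θ : ℂ) * (x.1 * y.1)‖ ≤ ‖x‖ * ‖y‖ := by
      rw [norm_mul, norm_mul, norm_θ]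
      have h3 : ‖x.1‖ * ‖y.1‖ ≤ ‖x‖ * ‖y‖ :=
        mul_le_mul (norm_fst_le x) (norm_fst_le y) (norm_nonneg _) (norm_nonneg _)
      have h4 : 0 ≤ ‖x.1‖ * ‖y.1‖ := by positivity
      have := mul_le_of_le_one_left h4 θ_le
      linarith
    unfold mA
    rw [Prod.norm_def, Prod.norm_def]
    refine max_le ?_ (max_le h1 h2)
    simp only [norm_zero]
    positivity

theorem exists_B :
    ∃ (D : Type) (_ : NonUnitalNormedRing D) (_ : NormedSpace ℂ D) (_ : IsScalarTower ℂ D D)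
      (_ : SMulCommClass ℂ D D) (_ : CompleteSpace D) (e : D ≃ₗ[ℂ] ℂ × L1),
      (∀ d, ‖d‖ = ‖e d‖) ∧ ∀ d d', e (d * d') = mB (e d) (e d') := by
  refine exists_alg_of (ℂ × L1) mB ?_ ?_ ?_ ?_ ?_
  · intro x y
    unfold mB
    rw [W_symm]
  · intro x y z
    unfold mB
    rw [W_add, smul_add]
    exact Prod.ext (by simp) rfl
  · intro c x y
    unfold mB
    rw [W_smul, smul_comm]
    exact Prod.ext (by simp) rfl
  · intro x y z
    refine Prod.ext rfl ?_
    show (θ : ℂ) • W (0, (θ : ℂ) • W x y) z = (θ : ℂ) • W x (0, (θ : ℂ) • W y z)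
    rw [W_assoc]
  · intro x y
    unfold mB
    rw [Prod.norm_def]
    refine max_le ?_ (norm_θW _ _)
    simp only [norm_zero]
    positivity

end Pool.Agent.Y147.FR
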