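import Pool.Agent.Y147.FR.OneDim

/-!
# Property (S) and the radical: radicals of every positive dimension

Products with algebras with zero multiplication.
-/

set_option autoImplicit false
open scoped unitInterval ENNReal

namespace Pool.Agent.Y147.FR

open Pool.Agent.Results.MP_a0c03c_an.FinDimRadical

/-- an algebra with zero multiplication of given dimension -/
theorem exists_null (j : ℕ) :
    ∃ (N : Type) (_ : NonUnitalNormedRing N) (_ : NormedSpace ℂ N) (_ : IsScalarTower ℂ N N)
      (_ : SMulCommClass ℂ N N) (_ : CompleteSpace N),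
      Module.finrank ℂ N = j ∧ FiniteDimensional ℂ N ∧ ∀ x y : N, x * y = 0 := by
  obtain ⟨D, i1, i2, i3, i4, i5, e, hn, hm⟩ := exists_nil (Fin j → ℂ) (Fin 0 → ℂ) 0 (by
    intro a b
    simp only [ContinuousLinearMap.zero_apply, norm_zero]
    positivity)
  refine ⟨D, i1, i2, i3, i4, i5, ?_, ?_, ?_⟩
  · rw [e.finrank_eq]
    simp
  · exact e.symm.finiteDimensional
  · intro x y
    apply e.injective
    rw [hm, map_zero]
    exact Prod.ext rfl (Subsingleton.elim _ _)

section

variable {A N : Type} [NonUnitalNormedRing A] [NormedSpace ℂ A] [IsScalarTower ℂ A A]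
  [SMulCommClass ℂ A A] [NonUnitalNormedRing N] [NormedSpace ℂ N] [IsScalarTower ℂ N N]
  [SMulCommClass ℂ N N]

theorem mem_of_ann {a : A} (hba : ∀ b : A, b * a = 0) : a ∈ radical A := by
  change (Unitization.inr a : Unitization ℂ A) ∈ Ring.jacobson (Unitization ℂ A)
  rw [← Ideal.jacobson_bot, Ideal.mem_jacobson_iff]
  intro y
  refine ⟨1 - Unitization.inr (y.fst • a), ?_⟩
  rw [Ideal.mem_bot]
  have hy : y * (Unitization.inr a : Unitization ℂ A) = Unitization.inr (y.fst • a) := by
    ext
    · simp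
    · simp [hba]
  have hy2 : (Unitization.inr (y.fst • a) : Unitization ℂ A) * Unitization.inr (y.fst • a) = 0 := by
    rw [← Unitization.inr_mul, mul_smul_comm, hba, smul_zero, Unitization.inr_zero]
  rw [mul_assoc, hy, sub_mul, one_mul, hy2]
  abel

theorem mem_radical_prod (hnull : ∀ x y : N, x * y = 0) (hann : ∀ r ∈ radical A, ∀ a : A, a * r = 0)
    (x : A × N) : x ∈ radical (A × N) ↔ x.1 ∈ radical A := by
  constructor
  · intro hx
    have hmem : (Unitization.inr x : Unitization ℂ (A × N)) ∈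
        Ideal.jacobson (⊥ : Ideal (Unitization ℂ (A × N))) := by
      rw [Ideal.jacobson_bot]
      exact hx
    rw [Ideal.mem_jacobson_iff] at hmem
    change (Unitization.inr x.1 : Unitization ℂ A) ∈ Ring.jacobson (Unitization ℂ A)
    rw [← Ideal.jacobson_bot, Ideal.mem_jacobson_iff]
    intro y
    obtain ⟨z, hz⟩ := hmem (Unitization.inl y.fst + Unitization.inr (y.snd, 0))
    rw [Ideal.mem_bot] at hz
    let ev : (A × N) →ₙₐ[ℂ] Unitization ℂ A :=
      (Unitization.inrNonUnitalAlgHom ℂ A).comp (NonUnitalAlgHom.fst ℂ A N)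
    let F : Unitization ℂ (A × N) →ₐ[ℂ] Unitization ℂ A := Unitization.lift ev
    have hF : ∀ b : A × N, F (Unitization.inr b) = Unitization.inr b.1 := by
      intro b
      simp [F, ev]
    have hF2 : ∀ c : ℂ, F (Unitization.inl c) = Unitization.inl c := fun c => F.commutes c
    refine ⟨F z, ?_⟩
    rw [Ideal.mem_bot]
    have h2 := congrArg F hz
    rw [map_sub, map_add, map_mul, map_mul, map_one, map_zero, hF, map_add, hF, hF2,
      Unitization.inl_fst_add_inr_snd_eq] at h2
    exact h2
  · intro hx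
    refine mem_of_ann fun b => ?_
    exact Prod.ext (hann _ hx _) (hnull _ _)

theorem finrank_radical_prod [FiniteDimensional ℂ N] (hnull : ∀ x y : N, x * y = 0)
    (hann : ∀ r ∈ radical A, ∀ a : A, a * r = 0) (h1 : Module.finrank ℂ (radical A) = 1) :
    Module.finrank ℂ (radical (A × N)) = 1 + Module.finrank ℂ N := by
  have hfd : FiniteDimensional ℂ (radical A) := Module.finite_of_finrank_pos (by omega)
  have e : (radical (A × N)) ≃ₗ[ℂ] (radical A × N) :=
    { toFun := fun x => (⟨x.1.1, (mem_radical_prod hnull hann x.1).1 x.2⟩, x.1.2)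
      invFun := fun y => ⟨(y.1.1, y.2), (mem_radical_prod hnull hann _).2 y.1.2⟩
      map_add' := fun _ _ => rfl
      map_smul' := fun _ _ => rfl
      left_inv := fun _ => rfl
      right_inv := fun _ => rfl }
  rw [e.finrank_eq, Module.finrank_prod, h1]

theorem propertyS_prod (hnull : ∀ x y : N, x * y = 0) (h : PropertyS A) : PropertyS (A × N) := by
  obtain ⟨C, hC⟩ := h
  refine ⟨C, fun x hx => ?_⟩
  have hx1 : x.1 ∈ squareSpan A ∧ x.2 = 0 := by
    induction hx using Submodule.span_induction with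
    | mem y hy =>
      obtain ⟨a, b, rfl⟩ := hy
      exact ⟨mem_squareSpan_mul a.1 b.1, hnull _ _⟩
    | zero => exact ⟨zero_mem _, rfl⟩
    | add y z _ _ hy hz =>
      exact ⟨add_mem hy.1 hz.1, by rw [Prod.snd_add, hy.2, hz.2, add_zero]⟩
    | smul c y _ hy => exact ⟨Submodule.smul_mem _ c hy.1, by rw [Prod.smul_snd, hy.2, smul_zero]⟩
  obtain ⟨n, a, b, h1, h2⟩ := hC x.1 hx1.1
  refine ⟨n, fun i => (a i, 0), fun i => (b i, 0), ?_, ?_⟩
  · refine Prod.ext ?_ ?_
    · rw [Prod.fst_sum, h1]
      rfl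
    · rw [Prod.snd_sum, hx1.2]
      symm
      refine Finset.sum_eq_zero fun i _ => ?_
      exact mul_zero (0 : N)
  · have hn : ∀ y : A, ‖((y, 0) : A × N)‖ = ‖y‖ := by
      intro y
      rw [Prod.norm_def]
      simp
    have hx2 : ‖x‖ = ‖x.1‖ := by
      have : x = (x.1, 0) := Prod.ext rfl hx1.2
      conv_lhs => rw [this]
      exact hn x.1
    simp only [hn, hx2]
    exact h2

end

/-- **Main theorem.** -/
theorem main_all (k : ℕ) (hk : 1 ≤ k) :
    ∃ (A : Type) (_ : NonUnitalNormedRing A) (_ : NormedSpace ℂ A) (_ : IsScalarTower ℂ A A)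
      (_ : SMulCommClass ℂ A A) (_ : CompleteSpace A)
      (B : Type) (_ : NonUnitalNormedRing B) (_ : NormedSpace ℂ B) (_ : IsScalarTower ℂ B B)
      (_ : SMulCommClass ℂ B B) (_ : CompleteSpace B) (q : A →ₙₐ[ℂ] B),
      Module.finrank ℂ (radical A) = k ∧ (∀ r ∈ radical A, ∀ a : A, a * r = 0 ∧ r * a = 0) ∧
      Function.Surjective q ∧ (∀ a : A, q a = 0 ↔ a ∈ radical A) ∧
      (∀ a : A, ‖q a‖ = Metric.infDist a (radical A : Set A)) ∧
      PropertyS A ∧ ¬ PropertyS B ∧ TopologicalSpace.SeparableSpace A := by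
  obtain ⟨A, _, _, _, _, _, B, _, _, _, _, _, q, h1, h2, h3, h4, h5, h6, h7, h8⟩ := one_dim
  obtain ⟨N, _, _, _, _, _, n1, _, n3⟩ := exists_null (k - 1)
  have hprop : ProperSpace N := FiniteDimensional.proper ℂ N
  have hsN : SecondCountableTopology N := inferInstance
  have hann : ∀ r ∈ radical A, ∀ a : A, a * r = 0 := fun r hr a => (h2 r hr a).1
  refine ⟨A × N, inferInstance, inferInstance, inferInstance, inferInstance, inferInstance,
    B, inferInstance, inferInstance, inferInstance, inferInstance, inferInstance,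
    q.comp (NonUnitalAlgHom.fst ℂ A N), ?_, ?_, ?_, ?_, ?_, ?_, h7, inferInstance⟩
  · rw [finrank_radical_prod n3 hann h1, n1]
    omega
  · intro r hr a
    have hr1 := (mem_radical_prod n3 hann r).1 hr
    exact ⟨Prod.ext (h2 _ hr1 _).1 (n3 _ _), Prod.ext (h2 _ hr1 _).2 (n3 _ _)⟩
  · intro b
    obtain ⟨a, ha⟩ := h3 b
    exact ⟨(a, 0), ha⟩
  · intro a
    rw [mem_radical_prod n3 hann]
    exact h4 a.1
  · intro a
    show ‖q a.1‖ = _
    rw [h5]
    apply le_antisymm
    · rw [Metric.le_infDist ⟨0, zero_mem (radical (A × N))⟩]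
      intro r hr
      have hr1 := (mem_radical_prod n3 hann r).1 hr
      refine (Metric.infDist_le_dist_of_mem (x := a.1) (s := (radical A : Set A)) hr1).trans ?_
      rw [Prod.dist_eq]
      exact le_max_left _ _
    · rw [Metric.le_infDist ⟨0, zero_mem (radical A)⟩]
      intro r hr
      have hr' : ((r, a.2) : A × N) ∈ radical (A × N) := (mem_radical_prod n3 hann _).2 hr
      refine (Metric.infDist_le_dist_of_mem (x := a) (s := (radical (A × N) : Set (A × N)))
        hr').trans ?_
      rw [Prod.dist_eq]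
      simp
  · exact propertyS_prod n3 h6

end Pool.Agent.Y147.FR
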