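import Pool.Agent.Y147.FR.Comm
import Pool.Agent.Y147.FR.Prod

/-!
# Property (S) and the radical: a commutative separable counterexample, II
-/

set_option autoImplicit false
open scoped ENNReal
open TopologicalSpace

namespace Pool.Agent.Y147.FR

open Pool.Agent.Results.MP_a0c03c_an.FinDimRadical

section

variable {A : Type} [NonUnitalNormedRing A] [NormedSpace ℂ A] [IsScalarTower ℂ A A]
  [SMulCommClass ℂ A A]

theorem θ_ne : (θ : ℂ) ≠ 0 := by
  exact_mod_cast θ_pos.ne'

/-- the second component of a finite sum of products -/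
theorem e_sum {e : A ≃ₗ[ℂ] ℂ × L1 × ℂ} (hm : ∀ d d', e (d * d') = mA (e d) (e d')) {n : ℕ}
    (a b : Fin n → A) :
    e (∑ i, a i * b i) = (0, ∑ i, (θ : ℂ) • W (pr (e (a i))) (pr (e (b i))),
      ∑ i, (θ : ℂ) * ((e (a i)).1 * (e (b i)).1)) := by
  rw [map_sum]
  simp only [hm, mA]
  refine Prod.ext ?_ (Prod.ext ?_ ?_)
  · rw [Prod.fst_sum]; simp
  · rw [Prod.snd_sum, Prod.fst_sum]
  · rw [Prod.snd_sum, Prod.snd_sum]

theorem A_ne {e : A ≃ₗ[ℂ] ℂ × L1 × ℂ} (hm : ∀ d d', e (d * d') = mA (e d) (e d')) :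
    e.symm (0, 0, 1) ∉ squareSpan A := by
  intro h
  obtain ⟨n, a, b, hab⟩ := exists_rep h
  have h1 := e_sum hm a b
  rw [← hab, e.apply_symm_apply] at h1
  have h2 : (0 : L1) = ∑ i, (θ : ℂ) • W (pr (e (a i))) (pr (e (b i))) := congrArg (fun z => z.2.1) h1
  have h3 : (1 : ℂ) = ∑ i, (θ : ℂ) * ((e (a i)).1 * (e (b i)).1) := congrArg (fun z => z.2.2) h1
  set p : Fin n → L1 := fun i => (e (a i)).2.1 with hp
  set q : Fin n → L1 := fun i => (e (b i)).2.1 with hq
  set y : L1 := ∑ i, (θ : ℂ) • ((e (a i)).1 • q i + (e (b i)).1 • p i) with hy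
  set v : L1 := ∑ i, PM ((θ : ℂ) • p i) (q i) with hv
  have h4 : ∀ k, ev k * ev k + ev k * co k y + co k v = 0 := by
    intro k
    have h5 := congrArg (co k) h2
    rw [map_zero, map_sum] at h5
    have h6 : ev k * ev k = ∑ i, ((θ : ℂ) * ((e (a i)).1 * (e (b i)).1)) * (ev k * ev k) := by
      rw [← Finset.sum_mul, ← h3, one_mul]
    rw [h5, hy, hv, map_sum, map_sum, Finset.mul_sum]
    conv_lhs => rw [h6]
    rw [← Finset.sum_add_distrib, ← Finset.sum_add_distrib]
    refine Finset.sum_congr rfl fun i _ => ?_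
    rw [co_PM, map_smul (co k), map_smul (co k), map_smul (co k), map_add (co k),
      map_smul (co k), map_smul (co k), co_W]
    simp only [smul_eq_mul, chi, pr, hp, hq]
    ring
  have h7 : Summable fun k => Real.sqrt ‖co k v‖ := summable_sqrt _ _ v rfl
  apply ev_not_summable
  refine Summable.of_nonneg_of_le (fun k => norm_nonneg _) (fun k => ?_)
    (((summable_co y).mul_left 2).add (h7.mul_left 2))
  set E := ‖ev k‖ with hE
  set Y := ‖co k y‖ with hY
  set S := Real.sqrt ‖co k v‖ with hS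
  have h8 : E * E ≤ E * Y + S * S := by
    have h9 : ev k * ev k = -(ev k * co k y) + -(co k v) := by
      have := h4 k
      linear_combination this
    have h10 : ‖ev k * ev k‖ ≤ ‖ev k * co k y‖ + ‖co k v‖ := by
      rw [h9]
      refine (norm_add_le _ _).trans ?_
      rw [norm_neg, norm_neg]
    rw [norm_mul, norm_mul] at h10
    rw [hS, Real.mul_self_sqrt (norm_nonneg _)]
    exact h10
  have hE0 : 0 ≤ E := norm_nonneg _
  have hY0 : 0 ≤ Y := norm_nonneg _
  have hS0 : 0 ≤ S := Real.sqrt_nonneg _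
  by_contra hcon
  push Not at hcon
  nlinarith

theorem A_closure {e : A ≃ₗ[ℂ] ℂ × L1 × ℂ} (hn : ∀ d, ‖d‖ = ‖e d‖)
    (hm : ∀ d d', e (d * d') = mA (e d) (e d')) :
    e.symm (0, 0, 1) ∈ closure (squareSpan A : Set A) := by
  have hlim := tendsto_trunc uvec
  have h1 : Filter.Tendsto (fun F : Finset ℕ => e.symm (0, uvec - trunc F uvec, 1)) Filter.atTop
      (nhds (e.symm (0, 0, 1))) := by
    rw [tendsto_iff_norm_sub_tendsto_zero]
    have h2 : ∀ F : Finset ℕ, ‖e.symm (0, uvec - trunc F uvec, 1) - e.symm (0, 0, 1)‖ =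
        ‖uvec - trunc F uvec‖ := by
      intro F
      rw [hn, map_sub, e.apply_symm_apply, e.apply_symm_apply, Prod.norm_def, Prod.norm_def]
      simp
    simp only [h2]
    have h3 := ((tendsto_const_nhds (x := uvec)).sub hlim).norm
    simpa using h3
  refine mem_closure_of_tendsto h1 (Filter.Eventually.of_forall fun F => ?_)
  have h4 : e.symm (0, uvec - trunc F uvec, 1) =
      (θ : ℂ)⁻¹ • (e.symm (1, 0, 0) * e.symm (1, 0, 0)) -
      ∑ k ∈ F, e.symm (0, sg k ((θ : ℂ)⁻¹ * co k uvec), 0) * e.symm (0, sg k 1, 0) := by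
    apply e.injective
    rw [map_sub, map_smul, map_sum]
    simp only [hm, e.apply_symm_apply, mA, pr]
    refine Prod.ext ?_ (Prod.ext ?_ ?_)
    · rw [Prod.fst_sub, Prod.fst_sum]; simp
    · rw [Prod.snd_sub, Prod.fst_sub, Prod.snd_sum, Prod.fst_sum]
      apply co_ext
      intro j
      show co j (uvec - trunc F uvec) = co j ((θ : ℂ)⁻¹ • ((θ : ℂ) • W (1, 0) (1, 0)) -
        ∑ k ∈ F, (θ : ℂ) • W (0, sg k ((θ : ℂ)⁻¹ * co k uvec)) (0, sg k 1))
      rw [map_sub, map_sub, map_sum, smul_smul, inv_mul_cancel₀ θ_ne, one_smul, co_trunc]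
      simp only [map_smul, co_W, chi, zero_mul, zero_add, one_mul, map_zero, add_zero, co_sg,
        smul_eq_mul]
      rw [ev_mul]
      congr 1
      rw [← Finset.sum_ite_eq F j (fun k => co k uvec)]
      refine Finset.sum_congr rfl fun k _ => ?_
      by_cases hjk : j = k
      · subst hjk
        simp only [if_true, mul_one]
        rw [← mul_assoc, mul_inv_cancel₀ θ_ne, one_mul]
      · simp [hjk]
    · rw [Prod.snd_sub, Prod.snd_sub, Prod.snd_sum, Prod.snd_sum]
      simp only [Prod.smul_snd, mul_one, mul_zero, Finset.sum_const_zero, sub_zero, smul_eq_mul]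
      exact (inv_mul_cancel₀ θ_ne).symm
  rw [h4]
  refine sub_mem (Submodule.smul_mem _ _ (mem_squareSpan_mul _ _)) (sum_mem fun k _ => ?_)
  exact mem_squareSpan_mul _ _

/-- property (S) -/
theorem A_propertyS {e : A ≃ₗ[ℂ] ℂ × L1 × ℂ} (hn : ∀ d, ‖d‖ = ‖e d‖)
    (hm : ∀ d d', e (d * d') = mA (e d) (e d')) : PropertyS A := by
  refine ⟨θ⁻¹ * (2 + ‖uvec‖) + 1, ?_⟩
  intro x hx
  change Rep x ((θ⁻¹ * (2 + ‖uvec‖) + 1) * ‖x‖)
  obtain ⟨n, a, b, hab⟩ := exists_rep hx
  by_cases hx0 : x = 0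
  · subst hx0
    simpa using Rep.zero
  have hxpos : 0 < ‖x‖ := norm_pos_iff.mpr hx0
  have h1 := e_sum hm a b
  rw [← hab] at h1
  set p : Fin n → L1 := fun i => (e (a i)).2.1 with hp
  set q : Fin n → L1 := fun i => (e (b i)).2.1 with hq
  set s : L1 := (e x).2.1 with hs
  set g : ℂ := (e x).2.2 with hg
  have hs2 : s = ∑ i, (θ : ℂ) • W (pr (e (a i))) (pr (e (b i))) := congrArg (fun z => z.2.1) h1
  have hg2 : g = ∑ i, (θ : ℂ) * ((e (a i)).1 * (e (b i)).1) := congrArg (fun z => z.2.2) h1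
  have hex : e x = (0, s, g) := by
    rw [h1, hs2, hg2]
  have hsn : ‖s‖ ≤ ‖x‖ := by
    rw [hn]
    exact (norm_fst_le (e x).2).trans (norm_snd_le (e x))
  have hgn : ‖g‖ ≤ ‖x‖ := by
    rw [hn]
    exact (norm_snd_le (e x).2).trans (norm_snd_le (e x))
  set m : L1 := s - g • uvec with hmm
  have hmn : ‖m‖ ≤ (1 + ‖uvec‖) * ‖x‖ := by
    have h2 := norm_sub_le s (g • uvec)
    rw [norm_smul] at h2
    have h3 := mul_le_mul_of_nonneg_right hgn (norm_nonneg uvec)
    rw [← hmm] at h2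
    linarith
  have hθ := θ_pos
  have hθi : 0 < θ⁻¹ := inv_pos.2 hθ
  have nθi : ‖((θ : ℂ))⁻¹‖ = θ⁻¹ := by rw [norm_inv, norm_θ]
  -- the coordinates of the rest
  have hmk : ∀ k, co k m = ∑ i, (θ : ℂ) * ((e (a i)).1 * (ev k * co k (q i)) +
      (e (b i)).1 * (ev k * co k (p i)) + co k (p i) * co k (q i)) := by
    intro k
    rw [hmm, map_sub, map_smul, hs2, hg2, map_sum, smul_eq_mul, Finset.sum_mul,
      ← Finset.sum_sub_distrib]
    refine Finset.sum_congr rfl fun i _ => ?_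
    rw [map_smul, co_W, ← ev_mul]
    simp only [smul_eq_mul, chi, pr, hp, hq]
    ring
  -- choice of the finite set
  have hlim : Filter.Tendsto (fun F => ∑ i, (‖(e (a i)).1‖ * ‖q i - trunc F (q i)‖ +
      ‖(e (b i)).1‖ * ‖p i - trunc F (p i)‖ + ‖p i - trunc F (p i)‖ * ‖q i - trunc F (q i)‖))
      Filter.atTop (nhds 0) := by
    have h1 : ∀ i ∈ (Finset.univ : Finset (Fin n)), Filter.Tendsto (fun F =>
        (‖(e (a i)).1‖ * ‖q i - trunc F (q i)‖ +
        ‖(e (b i)).1‖ * ‖p i - trunc F (p i)‖ + ‖p i - trunc F (p i)‖ * ‖q i - trunc F (q i)‖))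
        Filter.atTop (nhds 0) := by
      intro i _
      have h2 := ((tendsto_const_nhds (x := p i)).sub (tendsto_trunc (p i))).norm
      have h3 := ((tendsto_const_nhds (x := q i)).sub (tendsto_trunc (q i))).norm
      rw [sub_self, norm_zero] at h2 h3
      have h4 := ((h3.const_mul ‖(e (a i)).1‖).add (h2.const_mul ‖(e (b i)).1‖)).add (h2.mul h3)
      simpa using h4
    have := tendsto_finsetSum _ h1
    simpa using this
  obtain ⟨F, hF⟩ := (hlim.eventually (gt_mem_nhds hxpos)).exists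
  have hr0 : Rep (((θ : ℂ)⁻¹ • e.symm (g, 0, 0)) * e.symm (1, 0, 0)) (θ⁻¹ * ‖g‖) := by
    apply (Rep.mul _ _).mono
    rw [norm_smul, nθi, hn, hn, e.apply_symm_apply, e.apply_symm_apply, Prod.norm_def,
      Prod.norm_def]
    simp
  have hr1 : Rep (∑ k ∈ F, ((θ : ℂ)⁻¹ • e.symm (0, sg k (co k m), 0)) * e.symm (0, sg k 1, 0))
      (∑ k ∈ F, θ⁻¹ * ‖co k m‖) := by
    apply Rep.sum
    intro k _
    apply (Rep.mul _ _).mono
    rw [norm_smul, nθi, hn, hn, e.apply_symm_apply, e.apply_symm_apply, Prod.norm_def,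
      Prod.norm_def, Prod.norm_def, Prod.norm_def]
    simp only [norm_sg, norm_zero]
    simp
  have hr2 : Rep (∑ i, (e.symm ((e (a i)).1, 0, 0) * e.symm (0, q i - trunc F (q i), 0) +
      e.symm ((e (b i)).1, 0, 0) * e.symm (0, p i - trunc F (p i), 0) +
      e.symm (0, p i - trunc F (p i), 0) * e.symm (0, q i - trunc F (q i), 0)))
      (∑ i, (‖(e (a i)).1‖ * ‖q i - trunc F (q i)‖ +
      ‖(e (b i)).1‖ * ‖p i - trunc F (p i)‖ +
      ‖p i - trunc F (p i)‖ * ‖q i - trunc F (q i)‖)) := by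
    apply Rep.sum
    intro i _
    refine Rep.add (Rep.add ?_ ?_) ?_
    all_goals
      apply (Rep.mul _ _).mono
      rw [hn, hn, e.apply_symm_apply, e.apply_symm_apply, Prod.norm_def, Prod.norm_def,
        Prod.norm_def, Prod.norm_def]
      simp
  have hfin := (hr0.add hr1).add hr2
  have hxeq : x = ((θ : ℂ)⁻¹ • e.symm (g, 0, 0)) * e.symm (1, 0, 0) +
      ∑ k ∈ F, ((θ : ℂ)⁻¹ • e.symm (0, sg k (co k m), 0)) * e.symm (0, sg k 1, 0) +
      ∑ i, (e.symm ((e (a i)).1, 0, 0) * e.symm (0, q i - trunc F (q i), 0) +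
      e.symm ((e (b i)).1, 0, 0) * e.symm (0, p i - trunc F (p i), 0) +
      e.symm (0, p i - trunc F (p i), 0) * e.symm (0, q i - trunc F (q i), 0)) := by
    apply e.injective
    rw [hex, map_add, map_add, map_sum, map_sum]
    simp only [smul_mul_assoc, map_add, map_smul, hm, e.apply_symm_apply, mA, pr]
    refine Prod.ext ?_ (Prod.ext ?_ ?_)
    · simp [Prod.fst_sum]
    · apply co_ext
      intro j
      have hsj : co j s = g * ev j * ev j + co j m := by
        rw [hmm, map_sub, map_smul, smul_eq_mul, ← ev_mul]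
        ring
      have hc : ∀ z : ℂ, (θ : ℂ)⁻¹ * ((θ : ℂ) * z) = z := fun z => by
        rw [← mul_assoc, inv_mul_cancel₀ θ_ne, one_mul]
      have hsum : ∑ k ∈ F, (θ : ℂ)⁻¹ * ((θ : ℂ) * ((if j = k then co k m else 0) *
          (if j = k then (1 : ℂ) else 0))) = if j ∈ F then co j m else 0 := by
        rw [← Finset.sum_ite_eq F j (fun k => co k m)]
        refine Finset.sum_congr rfl fun k _ => ?_
        by_cases hjk : j = k
        · subst hjk
          rw [hc]
          simp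
        · simp [hjk]
      simp only [Prod.snd_add, Prod.fst_add, Prod.snd_sum, Prod.fst_sum, Prod.smul_snd,
        Prod.smul_fst, map_add, map_sum, map_smul, co_W, chi, smul_eq_mul, map_zero, map_sub,
        zero_mul, zero_add, add_zero, one_mul, co_sg, co_trunc]
      rw [hsj, hc, hsum]
      by_cases hj : j ∈ F
      · simp only [if_true, hj, sub_self, mul_zero, zero_mul, add_zero,
          Finset.sum_const_zero]
      · rw [hmk]
        simp only [hj, if_false, sub_zero, add_zero]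
        congr 1
        refine Finset.sum_congr rfl fun i _ => ?_
        ring
    · simp only [Prod.snd_add, Prod.snd_sum, Prod.smul_snd, mul_one, mul_zero, zero_mul,
        Finset.sum_const_zero, add_zero, smul_eq_mul]
      rw [← mul_assoc, inv_mul_cancel₀ θ_ne, one_mul]
  rw [← hxeq] at hfin
  apply hfin.mono
  have h5 : ∑ k ∈ F, θ⁻¹ * ‖co k m‖ ≤ θ⁻¹ * ‖m‖ := by
    rw [← Finset.mul_sum, norm_eq_tsum]
    exact mul_le_mul_of_nonneg_left ((summable_co m).sum_le_tsum F (fun k _ => norm_nonneg _)) hθi.le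
  have h6 := mul_le_mul_of_nonneg_left hmn hθi.le
  have h7 := mul_le_mul_of_nonneg_left hgn hθi.le
  have h8 : (θ⁻¹ * (2 + ‖uvec‖) + 1) * ‖x‖ = θ⁻¹ * ‖x‖ + θ⁻¹ * ((1 + ‖uvec‖) * ‖x‖) + ‖x‖ := by
    ring
  rw [h8]
  linarith

end

end Pool.Agent.Y147.FR
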