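import Pool.Agent.Y147.FR.Comm2

/-!
# Property (S) and the radical: a commutative separable counterexample, III
-/

set_option autoImplicit false
open scoped ENNReal
open TopologicalSpace

namespace Pool.Agent.Y147.FR

open Pool.Agent.Results.MP_a0c03c_an.FinDimRadical

theorem char_zero {A : Type} [NonUnitalNormedRing A] [NormedSpace ℂ A] [IsScalarTower ℂ A A]
    [SMulCommClass ℂ A A] (φ : A →ₙₐ[ℂ] ℂ) {a : A} (ha : a ∈ radical A) : φ a = 0 := by
  have hmem : (Unitization.inr a : Unitization ℂ A) ∈
      Ideal.jacobson (⊥ : Ideal (Unitization ℂ A)) := by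
    rw [Ideal.jacobson_bot]
    exact ha
  rw [Ideal.mem_jacobson_iff] at hmem
  by_contra hne
  obtain ⟨z, hz⟩ := hmem (Unitization.inl (-(φ a)⁻¹))
  rw [Ideal.mem_bot] at hz
  let F : Unitization ℂ A →ₐ[ℂ] ℂ := Unitization.lift φ
  have h2 := congrArg F hz
  have h3 : F (Unitization.inr a) = φ a := by simp [F]
  have h4 : F (Unitization.inl (-(φ a)⁻¹)) = -(φ a)⁻¹ := F.commutes _
  rw [map_sub, map_add, map_mul, map_mul, map_one, map_zero, h3, h4] at h2
  have h5 : F z * -(φ a)⁻¹ * φ a = - F z := by
    rw [mul_assoc, neg_mul, inv_mul_cancel₀ hne]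
    ring
  rw [h5] at h2
  simp at h2

theorem comm_one :
    ∃ (A : Type) (_ : NonUnitalNormedRing A) (_ : NormedSpace ℂ A) (_ : IsScalarTower ℂ A A)
      (_ : SMulCommClass ℂ A A) (_ : CompleteSpace A)
      (B : Type) (_ : NonUnitalNormedRing B) (_ : NormedSpace ℂ B) (_ : IsScalarTower ℂ B B)
      (_ : SMulCommClass ℂ B B) (_ : CompleteSpace B) (q : A →ₙₐ[ℂ] B),
      Module.finrank ℂ (radical A) = 1 ∧ (∀ r ∈ radical A, ∀ a : A, a * r = 0) ∧
      Function.Surjective q ∧ (∀ a : A, q a = 0 ↔ a ∈ radical A) ∧
      (∀ a : A, ‖q a‖ = Metric.infDist a (radical A : Set A)) ∧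
      PropertyS A ∧ ¬ PropertyS B ∧ SeparableSpace A ∧ ∀ a b : A, a * b = b * a := by
  obtain ⟨A, _, _, _, _, _, e, hn, hm⟩ := exists_A
  obtain ⟨B, _, _, _, _, _, f, hnB, hmB⟩ := exists_B
  have hpr_add : ∀ x y : ℂ × L1 × ℂ, pr (x + y) = pr x + pr y := fun _ _ => rfl
  have hpr_smul : ∀ (c : ℂ) (x : ℂ × L1 × ℂ), pr (c • x) = c • pr x := fun _ _ => rfl
  have hpr_zero : pr 0 = 0 := rfl
  have hpr_mul : ∀ a b : A, pr (e (a * b)) = (0, (θ : ℂ) • W (pr (e a)) (pr (e b))) := by
    intro a b
    rw [hm]
    rfl
  let q : A →ₙₐ[ℂ] B :=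
    { toFun := fun a => f.symm (pr (e a))
      map_smul' := by
        intro c a
        rw [map_smul, hpr_smul, map_smul]
        rfl
      map_zero' := by
        rw [map_zero, hpr_zero, map_zero]
      map_add' := by
        intro a b
        rw [map_add, hpr_add, map_add]
      map_mul' := by
        intro a b
        apply f.injective
        rw [hmB, f.apply_symm_apply, f.apply_symm_apply, f.apply_symm_apply, hpr_mul]
        rfl }
  have hq : ∀ a, f (q a) = pr (e a) := fun a => f.apply_symm_apply _
  let φ : ℕ → (A →ₙₐ[ℂ] ℂ) := fun k =>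
    { toFun := fun a => (θ : ℂ) * chi k (pr (e a))
      map_smul' := by
        intro c a
        rw [map_smul, hpr_smul, chi_smul]
        simp only [smul_eq_mul, MonoidHom.id_apply]
        ring
      map_zero' := by
        rw [map_zero, hpr_zero]
        simp [chi]
      map_add' := by
        intro a b
        rw [map_add, hpr_add, chi_add]
        ring
      map_mul' := by
        intro a b
        rw [hpr_mul, chi_zero_left, map_smul, co_W, smul_eq_mul]
        ring }
  -- the radical
  have hrad : ∀ a : A, a ∈ radical A ↔ pr (e a) = 0 := by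
    intro a
    constructor
    · intro ha
      have h1 : ∀ k, chi k (pr (e a)) = 0 := by
        intro k
        have h2 : (θ : ℂ) * chi k (pr (e a)) = 0 := char_zero (φ k) ha
        exact (mul_eq_zero.1 h2).resolve_left θ_ne
      have h3 : (pr (e a)).1 = 0 := by
        by_contra hne
        apply ev_not_summable
        have h4 : ∀ k, ‖ev k‖ = ‖(pr (e a)).1‖⁻¹ * ‖co k (pr (e a)).2‖ := by
          intro k
          have h5 : co k (pr (e a)).2 = -((pr (e a)).1 * ev k) := by
            have := h1 k
            unfold chi at this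
            linear_combination this
          rw [h5, norm_neg, norm_mul, ← mul_assoc, inv_mul_cancel₀ (norm_ne_zero_iff.2 hne),
            one_mul]
        simp only [h4]
        exact (summable_co _).mul_left _
      refine Prod.ext h3 ?_
      apply co_ext
      intro k
      have := h1 k
      unfold chi at this
      rw [h3, zero_mul, zero_add] at this
      rw [this]
      rfl
    · intro h
      apply mem_of_ann
      intro b
      apply e.injective
      rw [hm, map_zero]
      unfold mA
      have h1 : (e a).1 = 0 := congrArg Prod.fst h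
      rw [h, h1]
      have h2 : W (pr (e b)) 0 = 0 := by
        apply co_ext
        intro k
        rw [co_W]
        simp [chi]
      rw [h2]
      simp
  have hcomm : ∀ a b : A, a * b = b * a := by
    intro a b
    apply e.injective
    rw [hm, hm]
    unfold mA
    rw [W_symm, mul_comm (e a).1]
  have hann : ∀ r ∈ radical A, ∀ a : A, a * r = 0 := by
    intro r hr a
    have h := (hrad r).1 hr
    apply e.injective
    rw [hm, map_zero]
    unfold mA
    have h1 : (e r).1 = 0 := congrArg Prod.fst h
    rw [h, h1]
    have h2 : W (pr (e a)) 0 = 0 := by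
      apply co_ext
      intro k
      rw [co_W]
      simp [chi]
    rw [h2]
    simp
  have hu : e.symm (0, 0, 1) ∈ radical A := by
    rw [hrad, e.apply_symm_apply]
    rfl
  have hfin : Module.finrank ℂ (radical A) = 1 := by
    have heq : radical A = Submodule.span ℂ {e.symm (0, 0, 1)} := by
      apply le_antisymm
      · intro a ha
        rw [Submodule.mem_span_singleton]
        refine ⟨(e a).2.2, ?_⟩
        apply e.injective
        rw [map_smul, e.apply_symm_apply]
        have h := (hrad a).1 ha
        have h1 : (e a).1 = 0 := congrArg Prod.fst h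
        have h2 : (e a).2.1 = 0 := congrArg Prod.snd h
        refine Prod.ext ?_ (Prod.ext ?_ ?_)
        · rw [h1]; simp
        · rw [h2]; simp
        · simp
      · rw [Submodule.span_singleton_le_iff_mem]
        exact hu
    rw [heq]
    refine finrank_span_singleton ?_
    intro h0
    have h1 := congrArg e h0
    rw [e.apply_symm_apply, map_zero] at h1
    have h2 : (1 : ℂ) = 0 := congrArg (fun z => z.2.2) h1
    exact one_ne_zero h2
  have hsurj : Function.Surjective q := by
    intro b
    refine ⟨e.symm ((f b).1, (f b).2, 0), ?_⟩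
    apply f.injective
    rw [hq, e.apply_symm_apply]
    rfl
  have hker : ∀ a : A, q a = 0 ↔ a ∈ radical A := by
    intro a
    rw [hrad, ← hq]
    constructor
    · intro h
      rw [h, map_zero]
    · intro h
      apply f.injective
      rw [h, map_zero]
  have hnq : ∀ a : A, ‖q a‖ = ‖pr (e a)‖ := by
    intro a
    rw [hnB, hq]
  have hnorm : ∀ a : A, ‖q a‖ = Metric.infDist a (radical A : Set A) := by
    intro a
    apply le_antisymm
    · rw [Metric.le_infDist ⟨0, zero_mem (radical A)⟩]
      intro r hr
      rw [hnq, dist_eq_norm, hn, map_sub]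
      have h1 : pr (e a - e r) = pr (e a) := by
        have h2 : pr (e a - e r) = pr (e a) - pr (e r) := rfl
        rw [h2, (hrad r).1 hr, sub_zero]
      rw [← h1]
      exact norm_pr _
    · have hr : e.symm (0, 0, (e a).2.2) ∈ radical A := by
        rw [hrad, e.apply_symm_apply]
        rfl
      refine (Metric.infDist_le_dist_of_mem (x := a) (s := (radical A : Set A)) hr).trans ?_
      rw [hnq, dist_eq_norm, hn, map_sub, e.apply_symm_apply]
      have h1 : e a - (0, 0, (e a).2.2) = ((e a).1, (e a).2.1, (0 : ℂ)) := by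
        refine Prod.ext ?_ (Prod.ext ?_ ?_)
        · exact sub_zero _
        · exact sub_zero _
        · exact sub_self _
      rw [h1, Prod.norm_def, Prod.norm_def, Prod.norm_def]
      unfold pr
      simp
  have hfd : FiniteDimensional ℂ (radical A) := Module.finite_of_finrank_pos (by omega)
  have s1 := sep_L1
  have s2 : SecondCountableTopology A := nil_sep (E := ℂ) (G := L1 × ℂ) e hn
  refine ⟨A, inferInstance, inferInstance, inferInstance, inferInstance, inferInstance,
    B, inferInstance, inferInstance, inferInstance, inferInstance, inferInstance, q, hfin, hann,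
    hsurj, hker, hnorm, A_propertyS hn hm, ?_, inferInstance, hcomm⟩
  intro hB
  exact A_ne hm (char_mp q (radical A) hsurj hker hnorm hB _ hu (A_closure hn hm))

/-- **Main theorem.** -/
theorem comm_all (k : ℕ) (hk : 1 ≤ k) :
    ∃ (A : Type) (_ : NonUnitalNormedRing A) (_ : NormedSpace ℂ A) (_ : IsScalarTower ℂ A A)
      (_ : SMulCommClass ℂ A A) (_ : CompleteSpace A)
      (B : Type) (_ : NonUnitalNormedRing B) (_ : NormedSpace ℂ B) (_ : IsScalarTower ℂ B B)
      (_ : SMulCommClass ℂ B B) (_ : CompleteSpace B) (q : A →ₙₐ[ℂ] B),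
      Module.finrank ℂ (radical A) = k ∧ (∀ r ∈ radical A, ∀ a : A, a * r = 0) ∧
      Function.Surjective q ∧ (∀ a : A, q a = 0 ↔ a ∈ radical A) ∧
      (∀ a : A, ‖q a‖ = Metric.infDist a (radical A : Set A)) ∧
      PropertyS A ∧ ¬ PropertyS B ∧ SeparableSpace A ∧ ∀ a b : A, a * b = b * a := by
  obtain ⟨A, _, _, _, _, _, B, _, _, _, _, _, q, h1, hann, h3, h4, h5, h6, h7, h8, h9⟩ := comm_one
  obtain ⟨N, _, _, _, _, _, n1, _, n3⟩ := exists_null (k - 1)
  have hprop : ProperSpace N := FiniteDimensional.proper ℂ N
  have hsN : SecondCountableTopology N := inferInstance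
  refine ⟨A × N, inferInstance, inferInstance, inferInstance, inferInstance, inferInstance,
    B, inferInstance, inferInstance, inferInstance, inferInstance, inferInstance,
    q.comp (NonUnitalAlgHom.fst ℂ A N), ?_, ?_, ?_, ?_, ?_, ?_, h7, inferInstance, ?_⟩
  · rw [finrank_radical_prod n3 hann h1, n1]
    omega
  · intro r hr a
    have hr1 := (mem_radical_prod n3 hann r).1 hr
    exact Prod.ext (hann _ hr1 _) (n3 _ _)
  · intro b
    obtain ⟨a, ha⟩ := h3 b
    exact ⟨(a, 0), ha⟩
  · intro a
    rw [mem_radical_prod n3 hann]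
    exact h4 a.1
  · intro a
    show ‖q a.1‖ = _
    rw [h5]
    apply le_antisymm
    · rw [Metric.le_infDist ⟨0, zero_mem (radical (A × N))⟩]
      intro r hr
      have hr1 := (mem_radical_prod n3 hann r).1 hr
      refine (Metric.infDist_le_dist_of_mem (x := a.1) (s := (radical A : Set A)) hr1).trans ?_
      rw [Prod.dist_eq]
      exact le_max_left _ _
    · rw [Metric.le_infDist ⟨0, zero_mem (radical A)⟩]
      intro r hr
      have hr' : ((r, a.2) : A × N) ∈ radical (A × N) := (mem_radical_prod n3 hann _).2 hr
      refine (Metric.infDist_le_dist_of_mem (x := a) (s := (radical (A × N) : Set (A × N)))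
        hr').trans ?_
      rw [Prod.dist_eq]
      simp
  · exact propertyS_prod n3 h6
  · intro a b
    exact Prod.ext (h9 _ _) (by rw [Prod.snd_mul, Prod.snd_mul, n3, n3])

end Pool.Agent.Y147.FR
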