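import Pool.Agent.Y147.FR.Sep

/-!
# Property (S) and the radical: a one-dimensional radical which annihilates the algebra

The proof of `main` of the starting result, with more conclusions.
-/

set_option autoImplicit false
open scoped unitInterval ENNReal

namespace Pool.Agent.Y147.FR

open Pool.Agent.Results.MP_a0c03c_an.FinDimRadical

theorem main1 {D0 D1 B0 : Type}
    [NonUnitalNormedRing D0] [NormedSpace ℂ D0] [IsScalarTower ℂ D0 D0] [SMulCommClass ℂ D0 D0] [CompleteSpace D0]
    [NonUnitalNormedRing D1] [NormedSpace ℂ D1] [IsScalarTower ℂ D1 D1] [SMulCommClass ℂ D1 D1] [CompleteSpace D1]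
    [NormedRing B0] [NormedAlgebra ℂ B0] [CompleteSpace B0]
    (e0 : D0 ≃ₗ[ℂ] L1 × L1) (hn0 : ∀ d, ‖d‖ = ‖e0 d‖)
    (hm0 : ∀ d d', e0 (d * d') = (0, PM (e0 d).1 (e0 d').1))
    (e1 : D1 ≃ₗ[ℂ] L1 × Gq) (hn1 : ∀ d, ‖d‖ = ‖e1 d‖)
    (hm1 : ∀ d d', e1 (d * d') = (0, QM (e1 d).1 (e1 d').1))
    (hone : ‖(1 : B0)‖ ≤ 1) (hprim : ∀ T : B0, T ≠ 0 → ∃ S : B0, ¬ ∃ z : B0, z * (1 - S * T) = 1)
    (π1 : D1 →ₙₐ[ℂ] B0) (hπ1 : ∀ d, ‖π1 d‖ ≤ 2 * ‖d‖) (hinj : ∀ d, π1 d = 0 → d = 0) :
    ∃ (A : Type) (_ : NonUnitalNormedRing A) (_ : NormedSpace ℂ A) (_ : IsScalarTower ℂ A A)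
      (_ : SMulCommClass ℂ A A) (_ : CompleteSpace A)
      (B : Type) (_ : NonUnitalNormedRing B) (_ : NormedSpace ℂ B) (_ : IsScalarTower ℂ B B)
      (_ : SMulCommClass ℂ B B) (_ : CompleteSpace B) (q : A →ₙₐ[ℂ] B),
      Module.finrank ℂ (radical A) = 1 ∧ (∀ r ∈ radical A, ∀ a : A, a * r = 0 ∧ r * a = 0) ∧
      Function.Surjective q ∧ (∀ a : A, q a = 0 ↔ a ∈ radical A) ∧
      (∀ a : A, ‖q a‖ = Metric.infDist a (radical A : Set A)) ∧
      PropertyS A ∧ ¬ PropertyS B ∧
      (SecondCountableTopology D0 → SecondCountableTopology B0 → TopologicalSpace.SeparableSpace A) := by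
  -- the quotient map between the nilpotent algebras
  let qD : D0 →ₙₐ[ℂ] D1 :=
    { toFun := fun d => e1.symm ((e0 d).1, qL (e0 d).2)
      map_smul' := by
        intro c d
        apply e1.injective
        rw [map_smul, e1.apply_symm_apply, e1.map_smul, e1.apply_symm_apply]
        simp
      map_zero' := by
        apply e1.injective
        rw [map_zero, e1.apply_symm_apply]
        simp
      map_add' := by
        intro c d
        apply e1.injective
        rw [map_add, e1.apply_symm_apply, e1.map_add, e1.apply_symm_apply, e1.apply_symm_apply]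
        simp
      map_mul' := by
        intro c d
        apply e1.injective
        rw [hm0, hm1, e1.apply_symm_apply, e1.apply_symm_apply, e1.apply_symm_apply]
        rfl }
  have hqD : ∀ d, e1 (qD d) = ((e0 d).1, qL (e0 d).2) := fun d => e1.apply_symm_apply _
  have hqDn : ∀ d, ‖qD d‖ ≤ ‖d‖ := by
    intro d
    rw [hn1, hqD, hn0, Prod.norm_def, Prod.norm_def]
    exact max_le_max le_rfl (qL_le _)
  let π0 : D0 →ₙₐ[ℂ] B0 := π1.comp qD
  have hπ0' : ∀ d, π0 d = π1 (qD d) := fun d => rfl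
  have hπ0 : ∀ d, ‖π0 d‖ ≤ 2 * ‖d‖ := by
    intro d
    exact (hπ1 _).trans (mul_le_mul_of_nonneg_left (hqDn d) zero_le_two)
  have hc0 : Continuous π0 := AddMonoidHomClass.continuous_of_bound π0 2 hπ0
  have hc1 : Continuous π1 := AddMonoidHomClass.continuous_of_bound π1 2 hπ1
  obtain ⟨A, _, _, _, _, _, fA, pA, hA⟩ := exists_cov π0 hc0
  obtain ⟨B, _, _, _, _, _, fB, pB, hB⟩ := exists_cov π1 hc1
  -- the quotient map
  have hex : ∀ a : A, ∃ b : B, fB b = fA a ∧ pB b = qD (pA a) := by
    intro a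
    apply hB.surj
    rw [hA.zero_eq]
    rfl
  choose Q hQ1 hQ2 using hex
  let q : A →ₙₐ[ℂ] B :=
    { toFun := Q
      map_smul' := by
        intro c a
        apply hB.ext
        · rw [hQ1, map_smul]
          change _ = fB (c • Q a)
          rw [map_smul, hQ1]
        · rw [hQ2, map_smul, map_smul]
          change _ = pB (c • Q a)
          rw [map_smul, hQ2]
      map_zero' := by
        apply hB.ext
        · rw [hQ1, map_zero, map_zero]
        · rw [hQ2, map_zero, map_zero, map_zero]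
      map_add' := by
        intro a b
        apply hB.ext
        · rw [hQ1, map_add, map_add, hQ1, hQ1]
        · rw [hQ2, map_add, map_add, map_add, hQ2, hQ2]
      map_mul' := by
        intro a b
        apply hB.ext
        · rw [hQ1, map_mul, map_mul, hQ1, hQ1]
        · rw [hQ2, map_mul, map_mul, map_mul, hQ2, hQ2] }
  have hq1 : ∀ a, fB (q a) = fA a := hQ1
  have hq2 : ∀ a, pB (q a) = qD (pA a) := hQ2
  -- the radical of A
  have hann : ∀ c : ℂ, ∀ d : D0, d * e0.symm (0, c • uvec) = 0 := by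
    intro c d
    apply e0.injective
    rw [hm0, e0.apply_symm_apply, map_zero, map_zero]
    rfl
  have hqDu : ∀ c : ℂ, qD (e0.symm (0, c • uvec)) = 0 := by
    intro c
    apply e1.injective
    rw [hqD, e0.apply_symm_apply, map_zero]
    have : qL (c • uvec) = 0 := by
      rw [qL_eq_zero]
      exact Submodule.smul_mem _ _ (Submodule.mem_span_singleton_self uvec)
    simp [this]
  have hrad : ∀ a : A, a ∈ radical A ↔ ∃ c : ℂ, fA a = 0 ∧ pA a = e0.symm (0, c • uvec) := by
    intro a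
    constructor
    · intro ha
      have h1 := hA.f_eq_zero hprim ha
      have h2 : π1 (qD (pA a)) = 0 := by
        rw [← hπ0', ← hA.zero_eq, h1]
        rfl
      have h3 := hinj _ h2
      have h4 := hqD (pA a)
      rw [h3, map_zero] at h4
      have h5 : (e0 (pA a)).1 = 0 := (congrArg Prod.fst h4).symm
      have h6 : qL (e0 (pA a)).2 = 0 := (congrArg Prod.snd h4).symm
      obtain ⟨c, hc⟩ := Submodule.mem_span_singleton.mp (qL_eq_zero.mp h6)
      refine ⟨c, h1, ?_⟩
      apply e0.injective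
      rw [e0.apply_symm_apply]
      exact Prod.ext h5 hc.symm
    · rintro ⟨c, h1, h2⟩
      apply hA.mem_radical h1
      intro d
      rw [h2]
      exact hann c d
  have hexr : ∀ c : ℂ, ∃ a : A, fA a = 0 ∧ pA a = e0.symm (0, c • uvec) := by
    intro c
    apply hA.surj
    rw [hπ0', hqDu]
    simp
  refine ⟨A, inferInstance, inferInstance, inferInstance, inferInstance, inferInstance,
    B, inferInstance, inferInstance, inferInstance, inferInstance, inferInstance, q, ?_, ?_, ?_, ?_, ?_, ?_, ?_, ?_⟩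
  · -- finite dimensionality
    obtain ⟨r, hr1, hr2⟩ := hexr 1
    have hle : radical A ≤ Submodule.span ℂ {r} := by
      intro a ha
      obtain ⟨c, h1, h2⟩ := (hrad a).mp ha
      rw [Submodule.mem_span_singleton]
      refine ⟨c, ?_⟩
      apply hA.ext
      · rw [map_smul, hr1, h1]
        ext t
        simp
      · rw [map_smul, hr2, h2, ← map_smul]
        congr 1
        simp
    have hrm : r ∈ radical A := (hrad r).mpr ⟨1, hr1, hr2⟩
    have heq : radical A = Submodule.span ℂ {r} := by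
      refine le_antisymm hle ?_
      rw [Submodule.span_singleton_le_iff_mem]
      exact hrm
    have hr0 : r ≠ 0 := by
      intro h0
      rw [h0, map_zero] at hr2
      have h1 := congrArg e0 hr2
      rw [map_zero, e0.apply_symm_apply, one_smul] at h1
      have h2 : uvec = 0 := (congrArg Prod.snd h1).symm
      have h3 := co_uvec 0
      rw [h2, map_zero] at h3
      norm_num at h3
    rw [heq]
    exact finrank_span_singleton hr0
  · -- the radical annihilates the algebra
    intro r hr a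
    obtain ⟨c, h1, h2⟩ := (hrad r).mp hr
    constructor
    · apply hA.ext
      · rw [map_mul, h1, mul_zero, map_zero]
      · rw [map_mul, h2, hann, map_zero]
    · apply hA.ext
      · rw [map_mul, h1, zero_mul, map_zero]
      · rw [map_mul, h2, map_zero]
        apply e0.injective
        rw [hm0, e0.apply_symm_apply, map_zero, map_zero]
        rfl
  · -- surjectivity
    intro b
    obtain ⟨s, hs⟩ : ∃ s : L1, qL s = (e1 (pB b)).2 := Submodule.Quotient.mk_surjective Ru _
    have h1 : qD (e0.symm ((e1 (pB b)).1, s)) = pB b := by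
      apply e1.injective
      rw [hqD, e0.apply_symm_apply, hs]
    obtain ⟨a, ha1, ha2⟩ := hA.surj (fB b) (e0.symm ((e1 (pB b)).1, s)) (by
      rw [hπ0', h1, hB.zero_eq])
    refine ⟨a, ?_⟩
    apply hB.ext
    · rw [hq1, ha1]
    · rw [hq2, ha2, h1]
  · -- kernel
    intro a
    constructor
    · intro h
      have h1 : fA a = 0 := by rw [← hq1, h, map_zero]
      have h2 : qD (pA a) = 0 := by rw [← hq2, h, map_zero]
      have h4 := hqD (pA a)
      rw [h2, map_zero] at h4
      have h5 : (e0 (pA a)).1 = 0 := (congrArg Prod.fst h4).symm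
      have h6 : qL (e0 (pA a)).2 = 0 := (congrArg Prod.snd h4).symm
      obtain ⟨c, hc⟩ := Submodule.mem_span_singleton.mp (qL_eq_zero.mp h6)
      rw [hrad]
      refine ⟨c, h1, ?_⟩
      apply e0.injective
      rw [e0.apply_symm_apply]
      exact Prod.ext h5 hc.symm
    · intro ha
      obtain ⟨c, h1, h2⟩ := (hrad a).mp ha
      apply hB.ext
      · rw [hq1, h1, map_zero]
      · rw [hq2, h2, hqDu, map_zero]
  · -- the norm
    intro a
    have hqa : ‖q a‖ = max ‖fA a‖ (max ‖(e0 (pA a)).1‖ ‖qL (e0 (pA a)).2‖) := by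
      rw [hB.norm_eq, hq1, hq2, hn1, hqD, Prod.norm_def]
    have hdist : ∀ r : A, ∀ c : ℂ, fA r = 0 → pA r = e0.symm (0, c • uvec) →
        dist a r = max ‖fA a‖ (max ‖(e0 (pA a)).1‖ ‖(e0 (pA a)).2 - c • uvec‖) := by
      intro r c hr1 hr2
      rw [dist_eq_norm, hA.norm_eq, map_sub, map_sub, hr1, hr2, sub_zero, hn0, map_sub, e0.apply_symm_apply,
        Prod.norm_def]
      simp
    apply le_antisymm
    · rw [Metric.le_infDist ⟨0, zero_mem (radical A)⟩]
      intro r hr
      obtain ⟨c, hr1, hr2⟩ := (hrad r).mp hr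
      rw [hqa, hdist r c hr1 hr2]
      apply max_le_max le_rfl
      apply max_le_max le_rfl
      have : qL (e0 (pA a)).2 = qL ((e0 (pA a)).2 - c • uvec) := by
        have h0 : qL (c • uvec) = 0 := by
          rw [qL_eq_zero]
          exact Submodule.smul_mem _ _ (Submodule.mem_span_singleton_self uvec)
        rw [map_sub, h0, sub_zero]
      rw [this]
      exact qL_le _
    · apply le_of_forall_pos_le_add
      intro ε hε
      obtain ⟨c, hc⟩ := qL_norm_lt (e0 (pA a)).2 hε
      obtain ⟨r, hr1, hr2⟩ := hexr c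
      have hr : r ∈ radical A := (hrad r).mpr ⟨c, hr1, hr2⟩
      refine (Metric.infDist_le_dist_of_mem (x := a) (s := (radical A : Set A)) hr).trans ?_
      rw [hdist r c hr1 hr2, hqa]
      have h1 : ‖fA a‖ ≤ max ‖fA a‖ (max ‖(e0 (pA a)).1‖ ‖qL (e0 (pA a)).2‖) := le_max_left _ _
      have h2 : ‖(e0 (pA a)).1‖ ≤ max ‖fA a‖ (max ‖(e0 (pA a)).1‖ ‖qL (e0 (pA a)).2‖) :=
        (le_max_left _ _).trans (le_max_right _ _)
      have h3 : ‖qL (e0 (pA a)).2‖ ≤ max ‖fA a‖ (max ‖(e0 (pA a)).1‖ ‖qL (e0 (pA a)).2‖) :=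
        (le_max_right _ _).trans (le_max_right _ _)
      apply max_le (by linarith)
      apply max_le (by linarith) (by linarith)
  · exact hA.propertyS hone one_le_two hπ0 (nil_propertyS e0 hn0 hm0)
  · intro hS
    exact nil_not_propertyS e1 hn1 hm1 (hB.propertyS_down one_le_two hπ1 hS)
  · intro _ _
    exact IsCov.sep hA

theorem one_dim :
    ∃ (A : Type) (_ : NonUnitalNormedRing A) (_ : NormedSpace ℂ A) (_ : IsScalarTower ℂ A A)
      (_ : SMulCommClass ℂ A A) (_ : CompleteSpace A)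
      (B : Type) (_ : NonUnitalNormedRing B) (_ : NormedSpace ℂ B) (_ : IsScalarTower ℂ B B)
      (_ : SMulCommClass ℂ B B) (_ : CompleteSpace B) (q : A →ₙₐ[ℂ] B),
      Module.finrank ℂ (radical A) = 1 ∧ (∀ r ∈ radical A, ∀ a : A, a * r = 0 ∧ r * a = 0) ∧
      Function.Surjective q ∧ (∀ a : A, q a = 0 ↔ a ∈ radical A) ∧
      (∀ a : A, ‖q a‖ = Metric.infDist a (radical A : Set A)) ∧
      PropertyS A ∧ ¬ PropertyS B ∧ TopologicalSpace.SeparableSpace A := by
  obtain ⟨D0, _, _, _, _, _, e0, hn0, hm0⟩ := exists_nil L1 L1 PM PM_norm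
  obtain ⟨D1, _, _, _, _, _, e1, hn1, hm1⟩ := exists_nil L1 Gq QM QM_norm
  obtain ⟨π, hπ, hinj'⟩ := exists_repr QM QM_norm e1 hn1 hm1
  have s1 := sep_L1
  have s2 := sep_Gq
  have s3 : SecondCountableTopology D0 := nil_sep e0 hn0
  have s4 : SecondCountableTopology D1 := nil_sep e1 hn1
  obtain ⟨B0, _, _, _, s5, π1, hone, hprim, hπ1, hinj⟩ := exists_alg π hπ hinj'
  obtain ⟨A, a1, a2, a3, a4, a5, B, b1, b2, b3, b4, b5, q, h1, h2, h3, h4, h5, h6, h7, h8⟩ :=
    main1 e0 hn0 hm0 e1 hn1 hm1 hone hprim π1 hπ1 hinj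
  exact ⟨A, a1, a2, a3, a4, a5, B, b1, b2, b3, b4, b5, q, h1, h2, h3, h4, h5, h6, h7, h8 s3 s5⟩

end Pool.Agent.Y147.FR
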