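import Pool.Agent.Results.MP_a0c03c_an.FinDimRadical

/-!
# Property (S) and the radical: separable algebras

The algebra of all operators in the construction is replaced by a separable closed subalgebra
which contains enough operators of rank one.
-/

set_option autoImplicit false
open scoped unitInterval ENNReal
open TopologicalSpace

namespace Pool.Agent.Y147.FR

open Pool.Agent.Results.MP_a0c03c_an.FinDimRadical

theorem sep_L1 : SecondCountableTopology L1 := by
  have h1 : IsSeparable (Set.range fun k : ℕ => sg k 1) := (Set.countable_range _).isSeparable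
  have h2 : IsSeparable (closure (Submodule.span ℂ (Set.range fun k : ℕ => sg k 1) : Set L1)) :=
    h1.span.closure
  have h3 : closure (Submodule.span ℂ (Set.range fun k : ℕ => sg k 1) : Set L1) = Set.univ := by
    rw [Set.eq_univ_iff_forall]
    intro a
    refine mem_closure_of_tendsto (tendsto_trunc a) (Filter.Eventually.of_forall fun F => ?_)
    refine Submodule.sum_mem _ fun k _ => ?_
    have : sg k (co k a) = (co k a) • sg k 1 := by
      apply co_ext
      intro j
      rw [map_smul, co_sg, co_sg]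
      split_ifs <;> simp
    rw [this]
    exact Submodule.smul_mem _ _ (Submodule.subset_span ⟨k, rfl⟩)
  rw [h3] at h2
  have h4 : SeparableSpace L1 := isSeparable_univ_iff.1 h2
  exact UniformSpace.secondCountable_of_separable L1

theorem sep_Gq : SecondCountableTopology Gq := by
  have := sep_L1
  have h4 : SeparableSpace Gq := by
    have hs : Function.Surjective (Ru.mkQ : L1 → Gq) := Submodule.mkQ_surjective Ru
    have hc : Continuous (Ru.mkQ : L1 → Gq) := Ru.mkQL.continuous
    exact hs.denseRange.separableSpace hc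
  exact UniformSpace.secondCountable_of_separable Gq

/-- a separable closed algebra of operators -/
theorem exists_alg {X : Type} [NormedAddCommGroup X] [NormedSpace ℂ X] [CompleteSpace X]
    [SecondCountableTopology X] {D : Type} [NonUnitalNormedRing D] [NormedSpace ℂ D]
    [IsScalarTower ℂ D D] [SMulCommClass ℂ D D] [SecondCountableTopology D]
    (π : D →ₙₐ[ℂ] (X →L[ℂ] X)) (hπ : ∀ d, ‖π d‖ ≤ 2 * ‖d‖) (hinj : ∀ d, π d = 0 → d = 0) :
    ∃ (B0 : Type) (_ : NormedRing B0) (_ : NormedAlgebra ℂ B0) (_ : CompleteSpace B0)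
      (_ : SecondCountableTopology B0) (π1 : D →ₙₐ[ℂ] B0), ‖(1 : B0)‖ ≤ 1 ∧
      (∀ T : B0, T ≠ 0 → ∃ S : B0, ¬ ∃ z : B0, z * (1 - S * T) = 1) ∧
      (∀ d, ‖π1 d‖ ≤ 2 * ‖d‖) ∧ ∀ d, π1 d = 0 → d = 0 := by
  have hg : ∀ v : X, ∃ g : X →L[ℂ] ℂ, ‖g‖ ≤ 1 ∧ g v = ‖v‖ := fun v => exists_dual_vector'' ℂ v
  choose g hg1 hg2 using hg
  let v : ℕ → X := denseSeq X
  have : Nonempty D := ⟨0⟩
  let s : Set (X →L[ℂ] X) := (Set.range fun n : ℕ => π (denseSeq D n)) ∪
    (Set.range fun p : ℕ × ℕ => (g (v p.1)).smulRight (v p.2))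
  have hs : s.Countable := (Set.countable_range _).union (Set.countable_range _)
  let S : Subalgebra ℂ (X →L[ℂ] X) := (Algebra.adjoin ℂ s).topologicalClosure
  have hSc : IsClosed (S : Set (X →L[ℂ] X)) := Subalgebra.isClosed_topologicalClosure _
  have hSsep : IsSeparable (S : Set (X →L[ℂ] X)) := by
    have hm : (Submonoid.closure s : Set (X →L[ℂ] X)).Countable := by
      have : Countable s := hs.to_subtype
      refine (Set.countable_range fun l : List s => (l.map Subtype.val).prod).mono ?_
      intro x hx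
      obtain ⟨l, hl, rfl⟩ := Submonoid.exists_list_of_mem_closure hx
      refine ⟨l.attach.map fun y => ⟨y.1, hl y.1 y.2⟩, ?_⟩
      simp
    have h1 : IsSeparable (Submodule.span ℂ (Submonoid.closure s : Set (X →L[ℂ] X)) :
        Set (X →L[ℂ] X)) := hm.isSeparable.span
    rw [← Algebra.adjoin_eq_span] at h1
    exact h1.closure
  have hsS : s ⊆ S := fun x hx => subset_closure (Algebra.subset_adjoin hx)
  have hcπ : Continuous π := AddMonoidHomClass.continuous_of_bound π 2 hπ
  have hπS : ∀ d, π d ∈ S := by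
    intro d
    have h1 : Set.range (π : D → (X →L[ℂ] X)) ⊆ closure (Set.range fun n : ℕ => π (denseSeq D n)) := by
      have h2 := hcπ.range_subset_closure_image_dense (denseRange_denseSeq D)
      rwa [← Set.range_comp] at h2
    have h3 : closure (Set.range fun n : ℕ => π (denseSeq D n)) ⊆ S :=
      closure_minimal (fun x hx => hsS (Or.inl hx)) hSc
    exact h3 (h1 ⟨d, rfl⟩)
  have hcomp : CompleteSpace S := hSc.completeSpace_coe
  have hsec : SecondCountableTopology S := by
    have := hSsep.separableSpace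
    exact UniformSpace.secondCountable_of_separable S
  refine ⟨S, inferInstance, inferInstance, hcomp, hsec,
    { toFun := fun d => ⟨π d, hπS d⟩
      map_smul' := fun c d => Subtype.ext (map_smul π c d)
      map_zero' := Subtype.ext (map_zero π)
      map_add' := fun c d => Subtype.ext (map_add π c d)
      map_mul' := fun c d => Subtype.ext (map_mul π c d) }, ?_, ?_, ?_, ?_⟩
  · exact ContinuousLinearMap.norm_id_le
  · intro T hT
    have hT' : (T : X →L[ℂ] X) ≠ 0 := fun h => hT (Subtype.ext h)
    -- a vector of the dense sequence which is not annihilated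
    obtain ⟨k, hk⟩ : ∃ k, (T : X →L[ℂ] X) (v k) ≠ 0 := by
      by_contra hno
      push Not at hno
      apply hT'
      apply ContinuousLinearMap.ext
      intro x
      have hcl : IsClosed {x : X | (T : X →L[ℂ] X) x = 0} :=
        isClosed_eq (T : X →L[ℂ] X).continuous continuous_const
      have hx : x ∈ closure (Set.range v) := by
        rw [(denseRange_denseSeq X).closure_eq]
        trivial
      have hsub : Set.range v ⊆ {x : X | (T : X →L[ℂ] X) x = 0} := by
        rintro _ ⟨k, rfl⟩
        exact hno k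
      exact closure_minimal hsub hcl hx
    set w : X := (T : X →L[ℂ] X) (v k) with hw
    have hw0 : 0 < ‖w‖ := norm_pos_iff.2 hk
    obtain ⟨j, hj⟩ := (denseRange_denseSeq X).exists_dist_lt w (half_pos hw0)
    have hgj : g (v j) w ≠ 0 := by
      intro h0
      have h1 : g (v j) (v j - w) = ‖v j‖ := by rw [map_sub, h0, sub_zero, hg2]
      have h2 : ‖v j‖ ≤ ‖v j - w‖ := by
        have h3 := (g (v j)).le_opNorm (v j - w)
        rw [h1] at h3
        have h4 : ‖((‖v j‖ : ℝ) : ℂ)‖ = ‖v j‖ := by simp
        rw [h4] at h3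
        have h5 : ‖g (v j)‖ * ‖v j - w‖ ≤ 1 * ‖v j - w‖ :=
          mul_le_mul_of_nonneg_right (hg1 _) (norm_nonneg _)
        linarith
      have h6 : ‖v j - w‖ < ‖w‖ / 2 := by
        rw [norm_sub_rev, ← dist_eq_norm]
        exact hj
      have h7 : ‖w‖ ≤ ‖w - v j‖ + ‖v j‖ := by
        have := norm_add_le (w - v j) (v j)
        rwa [sub_add_cancel] at this
      rw [norm_sub_rev] at h7
      linarith
    have hr : (g (v j)).smulRight (v k) ∈ S := hsS (Or.inr ⟨(j, k), rfl⟩)
    refine ⟨(g (v j) w)⁻¹ • ⟨(g (v j)).smulRight (v k), hr⟩, ?_⟩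
    rintro ⟨z, hz⟩
    have h1 := congrArg (fun U : S => (U : X →L[ℂ] X) (v k)) hz
    have h2 : ((1 - ((g (v j) w)⁻¹ • (⟨(g (v j)).smulRight (v k), hr⟩ : S)) * T : S) : X →L[ℂ] X)
        (v k) = 0 := by
      show v k - (g (v j) w)⁻¹ • ((g (v j)) w • v k) = 0
      rw [smul_smul, inv_mul_cancel₀ hgj, one_smul, sub_self]
    have h3 : (z : X →L[ℂ] X) (((1 - ((g (v j) w)⁻¹ • (⟨(g (v j)).smulRight (v k), hr⟩ : S)) * T :
        S) : X →L[ℂ] X) (v k)) = v k := h1
    rw [h2, map_zero] at h3
    apply hk
    rw [hw, ← h3, map_zero]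
  · exact hπ
  · intro d hd
    exact hinj d (congrArg Subtype.val hd)

theorem IsCov.sep {A D B : Type} [NonUnitalNormedRing A] [NormedSpace ℂ A] [IsScalarTower ℂ A A]
    [SMulCommClass ℂ A A] [NonUnitalNormedRing D] [NormedSpace ℂ D] [IsScalarTower ℂ D D]
    [SMulCommClass ℂ D D] [NormedRing B] [NormedAlgebra ℂ B] [SecondCountableTopology D]
    [SecondCountableTopology B] {π : D →ₙₐ[ℂ] B} {f : A →ₙₐ[ℂ] C(I, B)} {p : A →ₙₐ[ℂ] D}
    (h : IsCov π f p) : SeparableSpace A := by
  have hi : Isometry (fun a : A => ((f a, p a) : C(I, B) × D)) := by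
    refine Isometry.of_dist_eq fun a b => ?_
    rw [dist_eq_norm, dist_eq_norm, h.norm_eq, map_sub, map_sub]
    rfl
  have := hi.isEmbedding.secondCountableTopology
  infer_instance

theorem nil_sep {D E G : Type} [NonUnitalNormedRing D] [NormedSpace ℂ D]
    [NormedAddCommGroup E] [NormedSpace ℂ E] [NormedAddCommGroup G] [NormedSpace ℂ G]
    [SecondCountableTopology E] [SecondCountableTopology G] (e : D ≃ₗ[ℂ] E × G)
    (hn : ∀ d, ‖d‖ = ‖e d‖) : SecondCountableTopology D := by
  have hi : Isometry (fun a : D => (e a : E × G)) := by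
    refine Isometry.of_dist_eq fun a b => ?_
    rw [dist_eq_norm, dist_eq_norm, hn, map_sub]
  exact hi.isEmbedding.secondCountableTopology

end Pool.Agent.Y147.FR
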